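import Mathlib

/-!
# Mertens type upper bounds
-/

set_option autoImplicit false

namespace Pool.Agent.Helper24

open Finset Nat

noncomputable section

/-- `∏_{p ≤ n} p^{⌊n/p⌋} ∣ n!`. -/
theorem prod_pow_div_dvd_factorial (n : ℕ) : ∏ p ∈ primesLE n, p ^ (n / p) ∣ n ! := by
  refine Finset.prod_dvd_of_isRelPrime ?_ ?_
  · intro p hp q hq hpq
    have hp' := prime_of_mem_primesLE (mem_coe.1 hp)
    have hq' := prime_of_mem_primesLE (mem_coe.1 hq)
    change IsRelPrime (p ^ (n / p)) (q ^ (n / q))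
    rw [← Nat.coprime_iff_isRelPrime]
    exact Nat.Coprime.pow _ _ ((Nat.coprime_primes hp' hq').2 hpq)
  · intro p hp
    have hp' := prime_of_mem_primesLE hp
    have h1 : p ^ (n / p) * (n / p)! ∣ (p * (n / p))! := by
      generalize n / p = k
      induction k with
      | zero => simp
      | succ k ih =>
        have h2 : (p * k)! * (p * (k + 1)) ∣ (p * (k + 1))! := by
          have h3 : 0 < p * (k + 1) := Nat.mul_pos hp'.pos (Nat.succ_pos k)
          obtain ⟨r, hr⟩ : ∃ r, p * (k + 1) = r + 1 := ⟨p * (k + 1) - 1, by omega⟩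
          rw [hr, factorial_succ, mul_comm]
          refine Nat.mul_dvd_mul_left _ (factorial_dvd_factorial ?_)
          have := hp'.two_le
          nlinarith
        refine dvd_trans ?_ h2
        rw [pow_succ, factorial_succ]
        calc p ^ k * p * ((k + 1) * k !) = (p ^ k * k !) * (p * (k + 1)) := by ring
          _ ∣ (p * k)! * (p * (k + 1)) := Nat.mul_dvd_mul_right ih _
    exact (Dvd.intro _ rfl).trans (h1.trans (factorial_dvd_factorial (Nat.mul_div_le n p)))

/-- Mertens' first theorem, upper bound. -/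
theorem sum_log_div_le (n : ℕ) (hn : 1 ≤ n) :
    ∑ p ∈ primesLE n, Real.log p / p ≤ Real.log n + Real.log 4 := by
  have hn0 : (0 : ℝ) < n := by exact_mod_cast hn
  have h1 : ((∏ p ∈ primesLE n, p ^ (n / p) : ℕ) : ℝ) ≤ (n : ℝ) ^ n := by
    have h2 := Nat.le_of_dvd (factorial_pos n) (prod_pow_div_dvd_factorial n)
    exact_mod_cast h2.trans (factorial_le_pow n)
  have hpos : (0 : ℝ) < ((∏ p ∈ primesLE n, p ^ (n / p) : ℕ) : ℝ) := by
    have : 0 < ∏ p ∈ primesLE n, p ^ (n / p) :=
      Finset.prod_pos fun p hp => pow_pos (prime_of_mem_primesLE hp).pos _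
    exact_mod_cast this
  have h3 := Real.log_le_log hpos h1
  rw [Real.log_pow] at h3
  push_cast at h3
  rw [Real.log_prod] at h3
  · have h4 : ∀ p ∈ primesLE n, ((n : ℝ) / p - 1) * Real.log p ≤ Real.log ((p : ℝ) ^ (n / p)) := by
      intro p hp
      have hp' := prime_of_mem_primesLE hp
      rw [Real.log_pow]
      have h5 : 0 ≤ Real.log p := Real.log_natCast_nonneg p
      have h6 : (n : ℝ) / p - 1 ≤ ((n / p : ℕ) : ℝ) := by
        have hp0 : (0 : ℝ) < p := by exact_mod_cast hp'.pos
        have := Nat.lt_div_mul_add (a := n) hp'.pos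
        have h' : (n : ℝ) < ((n / p : ℕ) : ℝ) * p + p := by exact_mod_cast this
        rw [div_sub_one hp0.ne', div_le_iff₀ hp0]
        linarith
      exact mul_le_mul_of_nonneg_right h6 h5
    have h5 := (sum_le_sum h4).trans h3
    have h6 : ∑ p ∈ primesLE n, ((n : ℝ) / p - 1) * Real.log p =
        n * (∑ p ∈ primesLE n, Real.log p / p) - ∑ p ∈ primesLE n, Real.log p := by
      rw [mul_sum, ← sum_sub_distrib]
      refine sum_congr rfl fun p _ => ?_
      ring
    rw [h6, ← Chebyshev.theta_eq_sum_primesLE_log] at h5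
    have h7 := Chebyshev.theta_le_log4_mul_x (x := n) (by positivity)
    have h8 : n * (∑ p ∈ primesLE n, Real.log p / p) ≤ n * (Real.log n + Real.log 4) := by
      nlinarith
    exact le_of_mul_le_mul_left h8 hn0
  · intro p hp
    have hp' := prime_of_mem_primesLE hp
    have : (p : ℝ) ≠ 0 := by exact_mod_cast hp'.ne_zero
    positivity

theorem mertens_aux (n : ℕ) (hn : 2 ≤ n) :
    ∑ p ∈ primesLE n, 1 / (p : ℝ) ≤
      (∑ p ∈ primesLE n, Real.log p / p) / Real.log n + Real.log (Real.log n) -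
        Real.log (Real.log 2) + Real.log 4 * (1 / Real.log 2 - 1 / Real.log n) := by
  induction n, hn using Nat.le_induction with
  | base =>
    have h1 : primesLE 2 = {2} := by decide
    rw [h1]
    have : Real.log 2 ≠ 0 := (Real.log_pos (by norm_num)).ne'
    simp only [sum_singleton]
    push_cast
    field_simp
    ring_nf
    exact le_rfl
  | succ n hn ih =>
    have hln : 0 < Real.log n := Real.log_pos (by exact_mod_cast (by omega : 1 < n))
    have hn0 : (0 : ℝ) < n := by exact_mod_cast (by omega : 0 < n)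
    have hln1 : 0 < Real.log (n + 1 : ℕ) :=
      Real.log_pos (by exact_mod_cast (by omega : 1 < n + 1))
    have hmono : Real.log n ≤ Real.log (n + 1 : ℕ) :=
      Real.log_le_log hn0 (by push_cast; linarith)
    set A := ∑ p ∈ primesLE n, Real.log p / p with hA
    have hA1 := sum_log_div_le n (by omega)
    rw [← hA] at hA1
    have hkey : A * (1 / Real.log n - 1 / Real.log (n + 1 : ℕ)) ≤
        Real.log (Real.log (n + 1 : ℕ)) - Real.log (Real.log n) +
        Real.log 4 * (1 / Real.log n - 1 / Real.log (n + 1 : ℕ)) := by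
      have h0 : 0 ≤ 1 / Real.log n - 1 / Real.log (n + 1 : ℕ) :=
        sub_nonneg.2 (one_div_le_one_div_of_le hln hmono)
      have h1 : A * (1 / Real.log n - 1 / Real.log (n + 1 : ℕ)) ≤
          (Real.log n + Real.log 4) * (1 / Real.log n - 1 / Real.log (n + 1 : ℕ)) :=
        mul_le_mul_of_nonneg_right hA1 h0
      have h2 : Real.log n * (1 / Real.log n - 1 / Real.log (n + 1 : ℕ)) =
          1 - Real.log n / Real.log (n + 1 : ℕ) := by
        field_simp
      have h3 : 1 - Real.log n / Real.log (n + 1 : ℕ) ≤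
          Real.log (Real.log (n + 1 : ℕ)) - Real.log (Real.log n) := by
        have h4 := Real.log_le_sub_one_of_pos (x := Real.log n / Real.log (n + 1 : ℕ))
          (by positivity)
        rw [Real.log_div hln.ne' hln1.ne'] at h4
        linarith
      rw [add_mul, h2] at h1
      linarith
    rw [primesLE_succ]
    by_cases hp : (n + 1).Prime
    · rw [if_pos hp, sum_insert (notMem_primesLE n), sum_insert (notMem_primesLE n), ← hA]
      have h5 : (Real.log (n + 1 : ℕ) / (n + 1 : ℕ) + A) / Real.log (n + 1 : ℕ) =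
          1 / ((n + 1 : ℕ) : ℝ) + A / Real.log (n + 1 : ℕ) := by
        have : ((n + 1 : ℕ) : ℝ) ≠ 0 := by positivity
        field_simp
      rw [h5]
      have h6 : A * (1 / Real.log n - 1 / Real.log (n + 1 : ℕ)) =
          A / Real.log n - A / Real.log (n + 1 : ℕ) := by ring
      rw [h6] at hkey
      linarith
    · rw [if_neg hp, ← hA]
      have h6 : A * (1 / Real.log n - 1 / Real.log (n + 1 : ℕ)) =
          A / Real.log n - A / Real.log (n + 1 : ℕ) := by ring
      rw [h6] at hkey
      linarith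

/-- Mertens' second theorem, upper bound. -/
theorem sum_inv_primes_le (n : ℕ) (hn : 2 ≤ n) :
    ∑ p ∈ primesLE n, 1 / (p : ℝ) ≤ Real.log (Real.log n) + 3.4 := by
  have h1 := mertens_aux n hn
  have hln : 0 < Real.log n := Real.log_pos (by exact_mod_cast (by omega : 1 < n))
  have h2 := sum_log_div_le n (by omega)
  have h3 : (∑ p ∈ primesLE n, Real.log p / p) / Real.log n ≤
      (Real.log n + Real.log 4) / Real.log n := by gcongr
  have h4 : (Real.log n + Real.log 4) / Real.log n = 1 + Real.log 4 * (1 / Real.log n) := by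
    field_simp
  have h5 : Real.log 4 = 2 * Real.log 2 := by
    rw [show (4 : ℝ) = 2 ^ 2 by norm_num, Real.log_pow]; norm_num
  have hl2 : 0 < Real.log 2 := Real.log_pos (by norm_num)
  have h6 : Real.log 4 * (1 / Real.log 2) = 2 := by rw [h5]; field_simp
  have h7 : -Real.log (Real.log 2) ≤ 0.4 := by
    -- log 2 ≥ exp (-0.4)
    have e1 : Real.exp (-0.4) ≤ Real.log 2 := by
      have e2 : Real.exp (-0.4) = (Real.exp 0.4)⁻¹ := by rw [Real.exp_neg]
      rw [e2]
      have e3 : (1.47 : ℝ) ≤ Real.exp 0.4 := by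
        have := Real.quadratic_le_exp_of_nonneg (x := 0.4) (by norm_num)
        norm_num at this ⊢
        linarith
      have e4 : (Real.exp 0.4)⁻¹ ≤ (1.47 : ℝ)⁻¹ := by gcongr
      have e5 := Real.log_two_gt_d9
      have e6 : (1.47 : ℝ)⁻¹ ≤ 0.6803 := by norm_num
      linarith
    have e7 := Real.log_le_log (Real.exp_pos _) e1
    rw [Real.log_exp] at e7
    linarith
  have h8 : Real.log 4 * (1 / Real.log 2 - 1 / Real.log n) = 2 - Real.log 4 * (1 / Real.log n) := by
    rw [mul_sub, h6]
  rw [h8] at h1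
  rw [h4] at h3
  linarith

/-- Mertens' third theorem, crude upper bound. -/
theorem prod_one_add_inv_le (n : ℕ) (hn : 2 ≤ n) :
    ∏ p ∈ primesLE n, (1 + 1 / (p : ℝ)) ≤ 30 * Real.log n := by
  have hln : 0 < Real.log n := Real.log_pos (by exact_mod_cast (by omega : 1 < n))
  have h1 : ∏ p ∈ primesLE n, (1 + 1 / (p : ℝ)) ≤ ∏ p ∈ primesLE n, Real.exp (1 / (p : ℝ)) := by
    refine prod_le_prod (fun p _ => by positivity) fun p _ => ?_
    rw [add_comm]
    exact Real.add_one_le_exp _
  rw [← Real.exp_sum] at h1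
  refine h1.trans ?_
  have h2 := Real.exp_le_exp.2 (sum_inv_primes_le n hn)
  refine h2.trans ?_
  rw [Real.exp_add, Real.exp_log hln, mul_comm]
  refine mul_le_mul_of_nonneg_right ?_ hln.le
  have e1 : Real.exp 3.4 = (Real.exp 1) ^ 3 * Real.exp 0.4 := by
    rw [← Real.exp_nat_mul, ← Real.exp_add]; norm_num
  have e2 := Real.exp_one_lt_d9
  have e3 : Real.exp 0.4 ≤ 1.4919 := by
    have := Real.exp_bound' (x := 0.4) (by norm_num) (by norm_num) (n := 5) (by norm_num)
    refine this.trans ?_
    norm_num [Finset.sum_range_succ, Nat.factorial]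
  have e4 : (Real.exp 1) ^ 3 ≤ 20.0856 := by
    calc (Real.exp 1) ^ 3 ≤ (2.7182818286 : ℝ) ^ 3 := by gcongr
      _ ≤ _ := by norm_num
  rw [e1]
  calc (Real.exp 1) ^ 3 * Real.exp 0.4 ≤ 20.0856 * 1.4919 := by gcongr
    _ ≤ 30 := by norm_num

theorem two_pow_card_primeFactors_le {h : ℕ} (hh : h ≠ 0) : 2 ^ h.primeFactors.card ≤ h := by
  calc 2 ^ h.primeFactors.card = ∏ _p ∈ h.primeFactors, 2 := by rw [prod_const]
    _ ≤ ∏ p ∈ h.primeFactors, p :=
        Finset.prod_le_prod' fun p hp => (prime_of_mem_primeFactors hp).two_le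
    _ ≤ h := Nat.le_of_dvd (Nat.pos_of_ne_zero hh) (Nat.prod_primeFactors_dvd h)

theorem card_primeFactors_le_log {h : ℕ} (hh : h ≠ 0) :
    (h.primeFactors.card : ℝ) ≤ Real.log h / Real.log 2 := by
  have hl2 : 0 < Real.log 2 := Real.log_pos (by norm_num)
  rw [le_div_iff₀ hl2, ← Real.log_pow]
  refine Real.log_le_log (by positivity) ?_
  exact_mod_cast two_pow_card_primeFactors_le hh

/-- `∏_{p ∣ h}(1+1/p)` is small. -/
theorem prod_primeFactors_one_add_inv_le {h : ℕ} (hh : h ≠ 0) {y : ℕ} (hy : 2 ≤ y) :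
    ∏ p ∈ h.primeFactors, (1 + 1 / (p : ℝ)) ≤
      30 * Real.log y * Real.exp (Real.log h / Real.log 2 / y) := by
  have hly : 0 < Real.log y := Real.log_pos (by exact_mod_cast (by omega : 1 < y))
  rw [← prod_filter_mul_prod_filter_not h.primeFactors (· ≤ y)]
  have h1 : ∏ p ∈ h.primeFactors.filter (· ≤ y), (1 + 1 / (p : ℝ)) ≤ 30 * Real.log y := by
    refine le_trans ?_ (prod_one_add_inv_le y hy)
    refine prod_le_prod_of_subset_of_one_le ?_ ?_ ?_
    · intro p hp
      rw [mem_filter] at hp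
      exact mem_primesLE.2 ⟨hp.2, prime_of_mem_primeFactors hp.1⟩
    · intro p _; positivity
    · intro p _ _
      have : (0 : ℝ) ≤ 1 / p := by positivity
      linarith
  have h2 : ∏ p ∈ h.primeFactors.filter (fun p => ¬ p ≤ y), (1 + 1 / (p : ℝ)) ≤
      Real.exp (Real.log h / Real.log 2 / y) := by
    have hy0 : (0 : ℝ) < y := by positivity
    have h3 : ∏ p ∈ h.primeFactors.filter (fun p => ¬ p ≤ y), (1 + 1 / (p : ℝ)) ≤
        ∏ p ∈ h.primeFactors.filter (fun p => ¬ p ≤ y), Real.exp (1 / (y : ℝ)) := by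
      refine prod_le_prod (fun p _ => by positivity) fun p hp => ?_
      rw [mem_filter] at hp
      have h4 : (y : ℝ) ≤ p := by exact_mod_cast (not_le.1 hp.2).le
      have h5 : 1 / (p : ℝ) ≤ 1 / y := by gcongr
      calc 1 + 1 / (p : ℝ) ≤ 1 / (y : ℝ) + 1 := by linarith
        _ ≤ _ := Real.add_one_le_exp _
    rw [prod_const, ← Real.exp_nat_mul] at h3
    refine h3.trans (Real.exp_le_exp.2 ?_)
    rw [mul_one_div]
    gcongr
    refine le_trans ?_ (card_primeFactors_le_log hh)
    exact_mod_cast card_le_card (filter_subset _ _)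
  have h5 : 0 ≤ ∏ p ∈ h.primeFactors.filter (fun p => ¬ p ≤ y), (1 + 1 / (p : ℝ)) :=
    prod_nonneg fun p _ => by positivity
  exact mul_le_mul h1 h2 h5 (by positivity)

end

end Pool.Agent.Helper24
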