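import Mathlib

/-!
# Selberg's upper bound sieve

We complete Mathlib's `BoundingSieve` development: for a bounding sieve `s` and a cut-off `Y ≥ 1`,
`s.siftedSum ≤ s.totalMass / G + error`, with `G = ∑ g(l)` over `l ∣ P`, `l ≤ Y`.
-/

set_option autoImplicit false

namespace Pool.Agent.Helper24

open Finset BoundingSieve
open scoped ArithmeticFunction.Moebius

noncomputable section

variable (s : BoundingSieve) (Y : ℕ)

/-- divisors of the sifting product up to `Y`. -/
def divY : Finset ℕ := s.prodPrimes.divisors.filter (· ≤ Y)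

/-- The Selberg denominator. -/
def selG : ℝ := ∑ l ∈ divY s Y, s.selbergTerms l

/-- inner sums -/
def selT (d : ℕ) : ℝ := ∑ k ∈ (divY s Y).filter (d ∣ ·), s.selbergTerms k

/-- The Selberg weights. -/
def selW (d : ℕ) : ℝ := (s.nu d)⁻¹ * (μ d : ℝ) * (selG s Y)⁻¹ * selT s Y d

variable {s Y}

theorem mem_divY {l : ℕ} : l ∈ divY s Y ↔ l ∣ s.prodPrimes ∧ l ≤ Y := by
  rw [divY, mem_filter, Nat.mem_divisors]
  exact ⟨fun h => ⟨h.1.1, h.2⟩, fun h => ⟨⟨h.1, prodPrimes_ne_zero⟩, h.2⟩⟩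

theorem selTerms_one : s.selbergTerms 1 = 1 := selbergTerms_isMultiplicative.map_one

theorem selTerms_nonneg {l : ℕ} (hl : l ∈ divY s Y) : 0 ≤ s.selbergTerms l :=
  (selbergTerms_pos (mem_divY.1 hl).1).le

theorem selG_pos (hY : 1 ≤ Y) : 0 < selG s Y := by
  have h1 : 1 ∈ divY s Y := mem_divY.2 ⟨one_dvd _, hY⟩
  have h2 : s.selbergTerms 1 ≤ selG s Y :=
    single_le_sum (f := fun l => s.selbergTerms l) (fun l hl => selTerms_nonneg hl) h1
  rw [selTerms_one] at h2
  linarith

theorem one_le_selG (hY : 1 ≤ Y) : 1 ≤ selG s Y := by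
  have h1 : 1 ∈ divY s Y := mem_divY.2 ⟨one_dvd _, hY⟩
  have h2 : s.selbergTerms 1 ≤ selG s Y :=
    single_le_sum (f := fun l => s.selbergTerms l) (fun l hl => selTerms_nonneg hl) h1
  rwa [selTerms_one] at h2

theorem selT_nonneg (d : ℕ) : 0 ≤ selT s Y d :=
  sum_nonneg fun _ hl => selTerms_nonneg (mem_filter.1 hl).1

theorem selT_le {d : ℕ} (hd : d ∣ s.prodPrimes) : selT s Y d ≤ s.selbergTerms d * selG s Y := by
  have hd0 : 0 < d := Nat.pos_of_ne_zero (ne_zero_of_dvd_ne_zero prodPrimes_ne_zero hd)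
  have hgd : 0 < s.selbergTerms d := selbergTerms_pos hd
  have h1 : selT s Y d = ∑ k ∈ (divY s Y).filter (d ∣ ·),
      s.selbergTerms d * s.selbergTerms (k / d) := by
    refine sum_congr rfl fun k hk => ?_
    rw [mem_filter, mem_divY] at hk
    have hsq : Squarefree k := squarefree_of_dvd_prodPrimes hk.1.1
    have hmul : d * (k / d) = k := Nat.mul_div_cancel' hk.2
    have hcop : Nat.Coprime d (k / d) := by
      rw [← hmul] at hsq
      exact Nat.coprime_of_squarefree_mul hsq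
    conv_lhs => rw [← hmul]
    exact selbergTerms_isMultiplicative.map_mul_of_coprime hcop
  rw [h1, ← mul_sum]
  refine mul_le_mul_of_nonneg_left ?_ hgd.le
  have hinj : Set.InjOn (fun k => k / d) (↑((divY s Y).filter (d ∣ ·)) : Set ℕ) := by
    intro k1 h1 k2 h2 h12
    rw [mem_coe, mem_filter] at h1 h2
    have h3 : k1 / d = k2 / d := h12
    rw [← Nat.mul_div_cancel' h1.2, ← Nat.mul_div_cancel' h2.2, h3]
  rw [← sum_image (f := fun m => s.selbergTerms m) hinj]
  refine sum_le_sum_of_subset_of_nonneg ?_ fun l hl _ => selTerms_nonneg hl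
  intro m hm
  rw [mem_image] at hm
  obtain ⟨k, hk, rfl⟩ := hm
  rw [mem_filter, mem_divY] at hk
  rw [mem_divY]
  exact ⟨(Nat.div_dvd_of_dvd hk.2).trans hk.1.1, (Nat.div_le_self _ _).trans hk.1.2⟩

theorem selT_eq_zero {d : ℕ} (hd : ¬ (d ≤ Y)) : selT s Y d = 0 := by
  refine sum_eq_zero fun k hk => ?_
  rw [mem_filter, mem_divY] at hk
  exfalso
  have hk0 : 0 < k := Nat.pos_of_ne_zero (ne_zero_of_dvd_ne_zero prodPrimes_ne_zero hk.1.1)
  exact hd ((Nat.le_of_dvd hk0 hk.2).trans hk.1.2)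

theorem selW_one (hY : 1 ≤ Y) : selW s Y 1 = 1 := by
  have h1 : selT s Y 1 = selG s Y := by
    rw [selT, selG, filter_true_of_mem]
    intro x _; exact one_dvd x
  rw [selW, h1, s.nu_mult.map_one]
  have := (selG_pos (s := s) hY).ne'
  simp [this]

theorem abs_selW_le (hY : 1 ≤ Y) {d : ℕ} (hd : d ∣ s.prodPrimes) :
    |selW s Y d| ≤ ∏ p ∈ d.primeFactors, (1 - s.nu p)⁻¹ := by
  have hnu : 0 < s.nu d := nu_pos_of_dvd_prodPrimes hd
  have hG := selG_pos (s := s) hY
  have h1 : |selW s Y d| ≤ (s.nu d)⁻¹ * (selG s Y)⁻¹ * selT s Y d := by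
    rw [selW, abs_mul, abs_mul, abs_mul, abs_of_pos (inv_pos.2 hnu), abs_of_pos (inv_pos.2 hG),
      abs_of_nonneg (selT_nonneg d)]
    have h2 : |((μ d : ℤ) : ℝ)| ≤ 1 := by
      rw [← Int.cast_abs]
      exact_mod_cast ArithmeticFunction.abs_moebius_le_one
    have h3 : 0 ≤ (s.nu d)⁻¹ * (selG s Y)⁻¹ * selT s Y d := by
      have := selT_nonneg (s := s) (Y := Y) d
      positivity
    calc (s.nu d)⁻¹ * |((μ d : ℤ) : ℝ)| * (selG s Y)⁻¹ * selT s Y d
        = |((μ d : ℤ) : ℝ)| * ((s.nu d)⁻¹ * (selG s Y)⁻¹ * selT s Y d) := by ring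
      _ ≤ 1 * ((s.nu d)⁻¹ * (selG s Y)⁻¹ * selT s Y d) :=
          mul_le_mul_of_nonneg_right h2 h3
      _ = _ := one_mul _
  refine h1.trans ?_
  have h4 := selT_le (s := s) (Y := Y) hd
  calc (s.nu d)⁻¹ * (selG s Y)⁻¹ * selT s Y d
      ≤ (s.nu d)⁻¹ * (selG s Y)⁻¹ * (s.selbergTerms d * selG s Y) := by gcongr
    _ = (s.nu d)⁻¹ * s.selbergTerms d := by field_simp
    _ = _ := by
      rw [selbergTerms_apply]
      field_simp

theorem selW_eq_zero {d : ℕ} (hd : ¬ (d ≤ Y)) : selW s Y d = 0 := by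
  rw [selW, selT_eq_zero hd, mul_zero]

/-- Moebius sum over an interval of divisors. -/
theorem sum_moebius_between {k l : ℕ} (hk : Squarefree k) (hlk : l ∣ k) :
    (∑ d ∈ k.divisors.filter (l ∣ ·), (μ d : ℝ)) = if k = l then (μ l : ℝ) else 0 := by
  have hk0 : k ≠ 0 := hk.ne_zero
  have hl0 : l ≠ 0 := ne_zero_of_dvd_ne_zero hk0 hlk
  have himg : k.divisors.filter (l ∣ ·) = (k / l).divisors.image (fun e => l * e) := by
    ext d
    simp only [mem_filter, Nat.mem_divisors, mem_image]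
    constructor
    · rintro ⟨⟨hdk, _⟩, hld⟩
      refine ⟨d / l, ⟨?_, ?_⟩, Nat.mul_div_cancel' hld⟩
      · exact Nat.div_dvd_div hld hdk
      · exact (Nat.div_pos (Nat.le_of_dvd (Nat.pos_of_ne_zero hk0) hlk)
          (Nat.pos_of_ne_zero hl0)).ne'
    · rintro ⟨e, ⟨he, _⟩, rfl⟩
      refine ⟨⟨?_, hk0⟩, Dvd.intro _ rfl⟩
      rw [← Nat.mul_div_cancel' hlk]
      exact Nat.mul_dvd_mul_left l he
  rw [himg, sum_image (fun x _ y _ h => Nat.eq_of_mul_eq_mul_left (Nat.pos_of_ne_zero hl0) h)]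
  have h1 : ∀ e ∈ (k / l).divisors, (μ (l * e) : ℝ) = (μ l : ℝ) * (μ e : ℝ) := by
    intro e he
    have hcop : Nat.Coprime l e := by
      have hsq : Squarefree (l * (k / l)) := by rwa [Nat.mul_div_cancel' hlk]
      exact (Nat.coprime_of_squarefree_mul hsq).coprime_dvd_right (Nat.dvd_of_mem_divisors he)
    rw [ArithmeticFunction.isMultiplicative_moebius.map_mul_of_coprime hcop]
    push_cast; ring
  rw [sum_congr rfl h1, ← mul_sum]
  have h2 : (∑ e ∈ (k / l).divisors, (μ e : ℝ)) = if k / l = 1 then 1 else 0 := by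
    have h := congrArg (fun f : ArithmeticFunction ℝ => f (k / l))
      (ArithmeticFunction.coe_moebius_mul_coe_zeta (R := ℝ))
    simp only [ArithmeticFunction.coe_mul_zeta_apply, ArithmeticFunction.one_apply,
      ArithmeticFunction.intCoe_apply] at h
    exact h
  rw [h2]
  have h3 : (k / l = 1) ↔ (k = l) := by
    constructor
    · intro h
      have := Nat.mul_div_cancel' hlk
      rw [h, mul_one] at this
      exact this.symm
    · rintro rfl
      exact Nat.div_self (Nat.pos_of_ne_zero hk0)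
  by_cases h : k = l
  · rw [if_pos (h3.2 h), if_pos h, mul_one]
  · rw [if_neg (fun h' => h (h3.1 h')), if_neg h, mul_zero]

theorem sum_nu_selW {l : ℕ} (hl : l ∣ s.prodPrimes) :
    (∑ d ∈ s.prodPrimes.divisors, if l ∣ d then s.nu d * selW s Y d else 0) =
      if l ≤ Y then (μ l : ℝ) * s.selbergTerms l * (selG s Y)⁻¹ else 0 := by
  have h1 : ∀ d ∈ s.prodPrimes.divisors, (if l ∣ d then s.nu d * selW s Y d else 0) =
      ∑ k ∈ divY s Y, if l ∣ d ∧ d ∣ k then
        (μ d : ℝ) * ((selG s Y)⁻¹ * s.selbergTerms k) else 0 := by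
    intro d hd
    have hnu : s.nu d ≠ 0 := nu_ne_zero (Nat.dvd_of_mem_divisors hd)
    by_cases h : l ∣ d
    · simp only [h, if_true, true_and]
      rw [selW, selT, sum_filter, mul_sum, mul_sum]
      refine sum_congr rfl fun k _ => ?_
      by_cases h' : d ∣ k
      · simp only [h', if_true]
        field_simp
      · simp only [h', if_false, mul_zero]
    · simp only [h, if_false, false_and, sum_const_zero]
  rw [sum_congr rfl h1, sum_comm]
  have h2 : ∀ k ∈ divY s Y, (∑ d ∈ s.prodPrimes.divisors, if l ∣ d ∧ d ∣ k then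
      (μ d : ℝ) * ((selG s Y)⁻¹ * s.selbergTerms k) else 0) =
      if k = l then (μ l : ℝ) * ((selG s Y)⁻¹ * s.selbergTerms k) else 0 := by
    intro k hk
    rw [mem_divY] at hk
    have hsqk : Squarefree k := squarefree_of_dvd_prodPrimes hk.1
    rw [← sum_filter]
    have h3 : s.prodPrimes.divisors.filter (fun d => l ∣ d ∧ d ∣ k) =
        k.divisors.filter (l ∣ ·) := by
      ext d
      simp only [mem_filter, Nat.mem_divisors]
      constructor
      · rintro ⟨_, h4, h5⟩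
        exact ⟨⟨h5, hsqk.ne_zero⟩, h4⟩
      · rintro ⟨⟨h5, _⟩, h4⟩
        exact ⟨⟨h5.trans hk.1, prodPrimes_ne_zero⟩, h4, h5⟩
    rw [h3, ← sum_mul]
    by_cases hlk : l ∣ k
    · rw [sum_moebius_between hsqk hlk]
      by_cases h : k = l
      · rw [if_pos h, if_pos h]
      · rw [if_neg h, if_neg h, zero_mul]
    · have h4 : k.divisors.filter (l ∣ ·) = ∅ := by
        rw [filter_eq_empty_iff]
        intro d hd hld
        exact hlk (hld.trans (Nat.dvd_of_mem_divisors hd))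
      rw [h4, sum_empty, zero_mul, if_neg]
      rintro rfl
      exact hlk dvd_rfl
  rw [sum_congr rfl h2]
  by_cases hlY : l ≤ Y
  · rw [if_pos hlY, sum_ite_eq_of_mem' _ _ _ (mem_divY.2 ⟨hl, hlY⟩)]
    ring
  · rw [if_neg hlY]
    refine sum_eq_zero fun k hk => ?_
    rw [if_neg]
    rintro rfl
    exact hlY (mem_divY.1 hk).2

theorem mainSum_selW (hY : 1 ≤ Y) :
    s.mainSum (lambdaSquared (selW s Y)) = (selG s Y)⁻¹ := by
  rw [mainSum_lambdaSquared_eq_sum_mul_sum_sq]
  have hG := selG_pos (s := s) hY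
  have h1 : ∀ l ∈ s.prodPrimes.divisors, (s.selbergTerms l)⁻¹ *
      (∑ d ∈ s.prodPrimes.divisors, if l ∣ d then s.nu d * selW s Y d else 0) ^ 2 =
      if l ≤ Y then s.selbergTerms l * ((selG s Y)⁻¹ * (selG s Y)⁻¹) else 0 := by
    intro l hl
    have hlP := Nat.dvd_of_mem_divisors hl
    have hg : s.selbergTerms l ≠ 0 := (selbergTerms_pos hlP).ne'
    rw [sum_nu_selW hlP]
    by_cases h : l ≤ Y
    · rw [if_pos h, if_pos h]
      have h2 : (μ l : ℝ) ^ 2 = 1 := by
        have := ArithmeticFunction.moebius_sq_eq_one_of_squarefree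
          (squarefree_of_dvd_prodPrimes hlP)
        exact_mod_cast this
      calc (s.selbergTerms l)⁻¹ * ((μ l : ℝ) * s.selbergTerms l * (selG s Y)⁻¹) ^ 2
          = (μ l : ℝ) ^ 2 * ((s.selbergTerms l)⁻¹ * s.selbergTerms l) *
            (s.selbergTerms l * ((selG s Y)⁻¹ * (selG s Y)⁻¹)) := by ring
        _ = _ := by rw [h2, inv_mul_cancel₀ hg]; ring
    · rw [if_neg h, if_neg h]; simp
  rw [sum_congr rfl h1, ← sum_filter, ← sum_mul]
  change selG s Y * _ = _
  field_simp

/-- **Selberg's sieve.** -/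
theorem siftedSum_le_selberg (hY : 1 ≤ Y) :
    s.siftedSum ≤ s.totalMass / selG s Y +
      ∑ d1 ∈ divY s Y, ∑ d2 ∈ divY s Y,
        |selW s Y d1| * |selW s Y d2| * |s.rem (d1.lcm d2)| := by
  have h1 := siftedSum_le_mainSum_errSum_of_upperMoebius (s := s) (lambdaSquared (selW s Y))
    (upperMoebius_lambdaSquared _ (selW_one hY))
  rw [mainSum_selW hY] at h1
  refine h1.trans (add_le_add (le_of_eq (by rw [div_eq_mul_inv])) ?_)
  rw [errSum]
  have h2 : ∀ d ∈ s.prodPrimes.divisors, |lambdaSquared (selW s Y) d| * |s.rem d| ≤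
      ∑ d1 ∈ divY s Y, ∑ d2 ∈ divY s Y, if d = d1.lcm d2 then
        |selW s Y d1| * |selW s Y d2| * |s.rem (d1.lcm d2)| else 0 := by
    intro d hd
    have hdP := Nat.dvd_of_mem_divisors hd
    have h3 : |lambdaSquared (selW s Y) d| ≤ ∑ d1 ∈ d.divisors, ∑ d2 ∈ d.divisors,
        if d = d1.lcm d2 then |selW s Y d1| * |selW s Y d2| else 0 := by
      rw [lambdaSquared]
      refine (abs_sum_le_sum_abs _ _).trans (sum_le_sum fun d1 _ => ?_)
      refine (abs_sum_le_sum_abs _ _).trans (sum_le_sum fun d2 _ => ?_)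
      by_cases h : d = d1.lcm d2
      · rw [if_pos h, if_pos h, abs_mul]
      · rw [if_neg h, if_neg h, abs_zero]
    have h4 : (∑ d1 ∈ d.divisors, ∑ d2 ∈ d.divisors,
        if d = d1.lcm d2 then |selW s Y d1| * |selW s Y d2| else 0) =
        ∑ d1 ∈ d.divisors.filter (· ≤ Y), ∑ d2 ∈ d.divisors.filter (· ≤ Y),
        if d = d1.lcm d2 then |selW s Y d1| * |selW s Y d2| else 0 := by
      rw [sum_filter]
      refine sum_congr rfl fun d1 _ => ?_
      by_cases hd1 : d1 ≤ Y
      · rw [if_pos hd1, sum_filter]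
        refine sum_congr rfl fun d2 _ => ?_
        by_cases hd2 : d2 ≤ Y
        · rw [if_pos hd2]
        · rw [if_neg hd2, selW_eq_zero hd2]; simp
      · rw [if_neg hd1]
        refine sum_eq_zero fun d2 _ => ?_
        rw [selW_eq_zero hd1]; simp
    have hsub : d.divisors.filter (· ≤ Y) ⊆ divY s Y := by
      intro e he
      rw [mem_filter] at he
      exact mem_divY.2 ⟨(Nat.dvd_of_mem_divisors he.1).trans hdP, he.2⟩
    calc |lambdaSquared (selW s Y) d| * |s.rem d|
        ≤ (∑ d1 ∈ d.divisors.filter (· ≤ Y), ∑ d2 ∈ d.divisors.filter (· ≤ Y),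
        if d = d1.lcm d2 then |selW s Y d1| * |selW s Y d2| else 0) * |s.rem d| := by
          rw [← h4]
          exact mul_le_mul_of_nonneg_right h3 (abs_nonneg _)
      _ = ∑ d1 ∈ d.divisors.filter (· ≤ Y), ∑ d2 ∈ d.divisors.filter (· ≤ Y),
        if d = d1.lcm d2 then |selW s Y d1| * |selW s Y d2| * |s.rem (d1.lcm d2)| else 0 := by
          rw [sum_mul]
          refine sum_congr rfl fun d1 _ => ?_
          rw [sum_mul]
          refine sum_congr rfl fun d2 _ => ?_
          by_cases h : d = d1.lcm d2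
          · rw [if_pos h, if_pos h, ← h]
          · rw [if_neg h, if_neg h, zero_mul]
      _ ≤ ∑ d1 ∈ d.divisors.filter (· ≤ Y), ∑ d2 ∈ divY s Y,
        if d = d1.lcm d2 then |selW s Y d1| * |selW s Y d2| * |s.rem (d1.lcm d2)| else 0 := by
          refine sum_le_sum fun d1 _ => sum_le_sum_of_subset_of_nonneg hsub fun d2 _ _ => ?_
          split_ifs <;> positivity
      _ ≤ _ := by
          refine sum_le_sum_of_subset_of_nonneg hsub fun d1 _ _ => sum_nonneg fun d2 _ => ?_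
          split_ifs <;> positivity
  refine (sum_le_sum h2).trans ?_
  rw [sum_comm]
  refine sum_le_sum fun d1 hd1 => ?_
  rw [sum_comm]
  refine sum_le_sum fun d2 hd2 => ?_
  have hl : d1.lcm d2 ∈ s.prodPrimes.divisors := by
    rw [Nat.mem_divisors]
    exact ⟨Nat.lcm_dvd (mem_divY.1 hd1).1 (mem_divY.1 hd2).1, prodPrimes_ne_zero⟩
  rw [sum_ite_eq_of_mem' _ _ _ hl]

end

end Pool.Agent.Helper24
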