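import Mathlib
import Pool.Agent.Helper24.Selberg

/-!
# A large-sieve type statement from Selberg's sieve
-/

set_option autoImplicit false

namespace Pool.Agent.Helper24

open Finset BoundingSieve

noncomputable section

theorem abs_card_modEq_sub_le (A M v r : ℕ) (hr : 0 < r) :
    |(((Ioc A (A + M)).filter (fun m => m ≡ v [MOD r])).card : ℝ) - (M : ℝ) / r| ≤ 1 := by
  have h := Nat.Ioc_filter_modEq_card A (A + M) hr v
  set N := ((Ioc A (A + M)).filter (fun m => m ≡ v [MOD r])).card with hN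
  have hrq : (0 : ℚ) < r := by exact_mod_cast hr
  have e : ((A + M : ℕ) : ℚ) - v = ((A : ℚ) - v) + M := by push_cast; ring
  rw [e, add_div] at h
  set u : ℚ := ((A : ℚ) - v) / r with hu
  set t : ℚ := (M : ℚ) / r with ht
  have ht0 : 0 ≤ t := by positivity
  have hmono : ⌊u⌋ ≤ ⌊u + t⌋ := Int.floor_le_floor (by linarith)
  rw [max_eq_left (by linarith)] at h
  have h1 := Int.floor_le u
  have h2 := Int.lt_floor_add_one u
  have h3 := Int.floor_le (u + t)
  have h4 := Int.lt_floor_add_one (u + t)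
  have hq : (N : ℚ) = (⌊u + t⌋ : ℚ) - ⌊u⌋ := by exact_mod_cast h
  have hq1 : |(N : ℚ) - t| ≤ 1 := by
    rw [hq, abs_le]
    constructor <;> linarith
  have hr1 : |(((N : ℚ) - t : ℚ) : ℝ)| ≤ 1 := by exact_mod_cast hq1
  rw [ht] at hr1
  push_cast at hr1
  exact hr1

theorem abs_card_residues_sub_le (A M : ℕ) (S : Finset ℕ) (hS : ∀ p ∈ S, p.Prime)
    (Ω : ℕ → Finset ℕ) (hΩ : ∀ p ∈ S, ∀ c ∈ Ω p, c < p) :
    |(((Ioc A (A + M)).filter (fun m => ∀ p ∈ S, m % p ∈ Ω p)).card : ℝ) -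
      (M : ℝ) * ∏ p ∈ S, ((Ω p).card : ℝ) / p| ≤ ∏ p ∈ S, ((Ω p).card : ℝ) := by
  classical
  set D := ∏ p ∈ S, p with hD
  have hDpos : 0 < D := Finset.prod_pos fun p hp => (hS p hp).pos
  have hcop : Set.Pairwise (↑S : Set ℕ) (Function.onFun Nat.Coprime (id : ℕ → ℕ)) := by
    intro i hi j hj hij
    exact (Nat.coprime_primes (hS i hi) (hS j hj)).2 hij
  set B := (Ioc A (A + M)).filter (fun m => ∀ p ∈ S, m % p ∈ Ω p) with hB
  -- fibre over tuples
  have hmaps : ∀ m ∈ B, (fun p (_ : p ∈ S) => m % p) ∈ S.pi Ω := by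
    intro m hm
    rw [hB, mem_filter] at hm
    rw [mem_pi]
    exact fun p hp => hm.2 p hp
  have h1 : B.card = ∑ c ∈ S.pi Ω, (B.filter (fun m => (fun p (_ : p ∈ S) => m % p) = c)).card :=
    card_eq_sum_card_fiberwise hmaps
  have h2 : ∀ c ∈ S.pi Ω, |((B.filter (fun m => (fun p (_ : p ∈ S) => m % p) = c)).card : ℝ) -
      (M : ℝ) / D| ≤ 1 := by
    intro c hc
    rw [mem_pi] at hc
    -- CRT
    obtain ⟨k, hk⟩ := Nat.chineseRemainderOfFinset
      (fun p => if hp : p ∈ S then c p hp else 0) (id : ℕ → ℕ) S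
      (fun i hi => (hS i hi).ne_zero) hcop
    have h3 : B.filter (fun m => (fun p (_ : p ∈ S) => m % p) = c) =
        (Ioc A (A + M)).filter (fun m => m ≡ k [MOD D]) := by
      ext m
      rw [mem_filter, hB, mem_filter, mem_filter]
      constructor
      · rintro ⟨⟨hm1, _⟩, hm2⟩
        refine ⟨hm1, ?_⟩
        have : m ≡ k [MOD (∏ p ∈ S, (id p : ℕ))] := by
          rw [Nat.modEq_iff_dvd]
          have hd : ∀ p ∈ S, ((p : ℕ) : ℤ) ∣ (k : ℤ) - m := by
            intro p hp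
            rw [← Nat.modEq_iff_dvd]
            have h4 := hk p hp
            simp only [dif_pos hp, id] at h4
            have h5 : m % p = c p hp := congrFun (congrFun hm2 p) hp
            rw [← h5] at h4
            exact ((Nat.mod_modEq m p).symm.trans h4.symm)
          have h6 : (∏ p ∈ S, ((p : ℕ) : ℤ)) ∣ (k : ℤ) - m := by
            refine Finset.prod_dvd_of_coprime ?_ hd
            intro i hi j hj hij
            exact Nat.isCoprime_iff_coprime.2 (hcop hi hj hij)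
          simpa using h6
        simpa using this
      · rintro ⟨hm1, hm2⟩
        have h4 : ∀ p (hp : p ∈ S), m % p = c p hp := by
          intro p hp
          have h5 : m ≡ k [MOD p] := hm2.of_dvd (Finset.dvd_prod_of_mem _ hp)
          have h6 := hk p hp
          simp only [dif_pos hp, id] at h6
          have h7 : m ≡ c p hp [MOD p] := h5.trans h6
          have h8 : c p hp < p := hΩ p hp _ (hc p hp)
          rw [Nat.ModEq, Nat.mod_eq_of_lt h8] at h7
          exact h7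
        refine ⟨⟨hm1, fun p hp => ?_⟩, ?_⟩
        · rw [h4 p hp]; exact hc p hp
        · funext p hp; exact h4 p hp
    rw [h3]
    exact abs_card_modEq_sub_le A M k D hDpos
  have h5 : (M : ℝ) * ∏ p ∈ S, ((Ω p).card : ℝ) / p = ∑ c ∈ S.pi Ω, (M : ℝ) / D := by
    rw [sum_const, card_pi, nsmul_eq_mul, prod_div_distrib, hD]
    push_cast
    ring
  have h6 : ∏ p ∈ S, ((Ω p).card : ℝ) = ∑ c ∈ S.pi Ω, (1 : ℝ) := by
    rw [sum_const, card_pi, nsmul_eq_mul]
    push_cast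
    ring
  rw [h1, h5, h6]
  push_cast
  rw [← sum_sub_distrib]
  exact (abs_sum_le_sum_abs _ _).trans (sum_le_sum h2)

/-- The sifting primes: primes `p ≤ Y` with a non-empty set of forbidden classes. -/
def siftPrimes (Ω : ℕ → Finset ℕ) (Y : ℕ) : Finset ℕ :=
  (range (Y + 1)).filter (fun p => p.Prime ∧ (Ω p).Nonempty)

theorem mem_siftPrimes {Ω : ℕ → Finset ℕ} {Y p : ℕ} :
    p ∈ siftPrimes Ω Y ↔ p ≤ Y ∧ p.Prime ∧ (Ω p).Nonempty := by
  rw [siftPrimes, mem_filter, mem_range, Nat.lt_succ_iff]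

/-- product of the primes `p` for which `m` lies in a forbidden class. -/
def hitProd (Ω : ℕ → Finset ℕ) (Y m : ℕ) : ℕ :=
  ∏ p ∈ (siftPrimes Ω Y).filter (fun p => m % p ∈ Ω p), p

theorem dvd_prod_primes_iff {S : Finset ℕ} (hS : ∀ p ∈ S, p.Prime) {q : ℕ} (hq : q.Prime) :
    q ∣ ∏ p ∈ S, p ↔ q ∈ S := by
  constructor
  · intro h
    obtain ⟨p, hp, hqp⟩ := (hq.prime.dvd_finsetProd_iff _).1 h
    rwa [(Nat.prime_dvd_prime_iff_eq hq (hS p hp)).1 hqp]
  · exact fun h => dvd_prod_of_mem _ h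

theorem squarefree_prod_primes {S : Finset ℕ} (hS : ∀ p ∈ S, p.Prime) :
    Squarefree (∏ p ∈ S, p) := by
  refine Finset.squarefree_prod_of_pairwise_isCoprime (fun p hp q hq hpq ↦ ?_)
    (fun p hp => (hS p hp).prime.squarefree)
  change IsRelPrime p q
  rw [← Nat.coprime_iff_isRelPrime]
  exact (Nat.coprime_primes (hS p hp) (hS q hq)).2 hpq

theorem primeFactors_prod_primes {S : Finset ℕ} (hS : ∀ p ∈ S, p.Prime) :
    (∏ p ∈ S, p).primeFactors = S := by
  ext q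
  rw [Nat.mem_primeFactors]
  constructor
  · rintro ⟨hq, hd, _⟩
    exact (dvd_prod_primes_iff hS hq).1 hd
  · intro hq
    exact ⟨hS q hq, dvd_prod_of_mem _ hq, (Finset.prod_pos fun p hp => (hS p hp).pos).ne'⟩

theorem siftPrimes_prime {Ω : ℕ → Finset ℕ} {Y : ℕ} : ∀ p ∈ siftPrimes Ω Y, p.Prime :=
  fun _ hp => (mem_siftPrimes.1 hp).2.1

/-- the density function of the residue sieve. -/
def resNu (Ω : ℕ → Finset ℕ) : ArithmeticFunction ℝ :=
  ArithmeticFunction.prodPrimeFactors (fun p => ((Ω p).card : ℝ) / p)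

theorem resNu_prime (Ω : ℕ → Finset ℕ) {p : ℕ} (hp : p.Prime) :
    resNu Ω p = ((Ω p).card : ℝ) / p := by
  rw [resNu, ArithmeticFunction.prodPrimeFactors_apply hp.ne_zero, hp.primeFactors,
    prod_singleton]

/-- The residue sieve as a bounding sieve. -/
def resSieve (A M Y : ℕ) (Ω : ℕ → Finset ℕ)
    (hΩ : ∀ p, p.Prime → p ≤ Y → (∀ c ∈ Ω p, c < p) ∧ (Ω p).card < p) : BoundingSieve where
  support := (∏ p ∈ siftPrimes Ω Y, p).divisors
  prodPrimes := ∏ p ∈ siftPrimes Ω Y, p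
  prodPrimes_squarefree := squarefree_prod_primes siftPrimes_prime
  weights := fun n => (((Ioc A (A + M)).filter (fun m => hitProd Ω Y m = n)).card : ℝ)
  weights_nonneg := fun n => by positivity
  totalMass := M
  nu := resNu Ω
  nu_mult := ArithmeticFunction.IsMultiplicative.prodPrimeFactors _
  nu_pos_of_prime := by
    intro p hp hd
    have h1 := (dvd_prod_primes_iff (siftPrimes_prime (Ω := Ω) (Y := Y)) hp).1 hd
    rw [resNu_prime Ω hp]
    have h2 : 0 < (Ω p).card := card_pos.2 (mem_siftPrimes.1 h1).2.2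
    have h3 := hp.pos
    positivity
  nu_lt_one_of_prime := by
    intro p hp hd
    have h1 := (dvd_prod_primes_iff (siftPrimes_prime (Ω := Ω) (Y := Y)) hp).1 hd
    rw [resNu_prime Ω hp, div_lt_one (by exact_mod_cast hp.pos)]
    exact_mod_cast (hΩ p hp (mem_siftPrimes.1 h1).1).2

section
variable {A M Y : ℕ} {Ω : ℕ → Finset ℕ}
variable {hΩ : ∀ p, p.Prime → p ≤ Y → (∀ c ∈ Ω p, c < p) ∧ (Ω p).card < p}

theorem hitProd_dvd (m : ℕ) : hitProd Ω Y m ∣ ∏ p ∈ siftPrimes Ω Y, p :=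
  prod_dvd_prod_of_subset _ _ _ (filter_subset _ _)

theorem prod_sift_ne_zero : (∏ p ∈ siftPrimes Ω Y, p) ≠ 0 :=
  (Finset.prod_pos fun p hp => (siftPrimes_prime p hp).pos).ne'

theorem dvd_hitProd_iff {d : ℕ} (hd : d ∣ ∏ p ∈ siftPrimes Ω Y, p) (m : ℕ) :
    d ∣ hitProd Ω Y m ↔ ∀ p ∈ d.primeFactors, m % p ∈ Ω p := by
  have hsq : Squarefree d :=
    Squarefree.squarefree_of_dvd hd (squarefree_prod_primes siftPrimes_prime)
  have hfp : ∀ p ∈ (siftPrimes Ω Y).filter (fun p => m % p ∈ Ω p), p.Prime :=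
    fun p hp => siftPrimes_prime p (mem_filter.1 hp).1
  constructor
  · intro h p hp
    have h1 : p ∣ hitProd Ω Y m := (Nat.dvd_of_mem_primeFactors hp).trans h
    have h2 := (dvd_prod_primes_iff hfp (Nat.prime_of_mem_primeFactors hp)).1 h1
    exact (mem_filter.1 h2).2
  · intro h
    rw [← Nat.prod_primeFactors_of_squarefree hsq]
    refine prod_dvd_prod_of_subset _ _ _ fun p hp => ?_
    rw [mem_filter]
    refine ⟨?_, h p hp⟩
    exact (dvd_prod_primes_iff siftPrimes_prime (Nat.prime_of_mem_primeFactors hp)).1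
      ((Nat.dvd_of_mem_primeFactors hp).trans hd)

theorem resSieve_multSum {d : ℕ} (hd : d ∣ ∏ p ∈ siftPrimes Ω Y, p) :
    (resSieve A M Y Ω hΩ).multSum d =
      (((Ioc A (A + M)).filter (fun m => ∀ p ∈ d.primeFactors, m % p ∈ Ω p)).card : ℝ) := by
  have h1 : ((Ioc A (A + M)).filter (fun m => ∀ p ∈ d.primeFactors, m % p ∈ Ω p)).card =
      ∑ n ∈ (∏ p ∈ siftPrimes Ω Y, p).divisors,
        (((Ioc A (A + M)).filter (fun m => ∀ p ∈ d.primeFactors, m % p ∈ Ω p)).filter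
          (fun m => hitProd Ω Y m = n)).card := by
    refine card_eq_sum_card_fiberwise fun m _ => ?_
    rw [mem_coe, Nat.mem_divisors]
    exact ⟨hitProd_dvd m, prod_sift_ne_zero⟩
  rw [h1]
  push_cast
  refine sum_congr rfl fun n hn => ?_
  rw [filter_filter]
  by_cases h : d ∣ n
  · rw [if_pos h]
    change (((Ioc A (A + M)).filter (fun m => hitProd Ω Y m = n)).card : ℝ) = _
    congr 2
    refine filter_congr fun m _ => ?_
    constructor
    · rintro rfl
      exact ⟨(dvd_hitProd_iff hd m).1 h, rfl⟩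
    · exact fun h' => h'.2
  · rw [if_neg h]
    symm
    rw [Nat.cast_eq_zero, card_eq_zero, filter_eq_empty_iff]
    rintro m _ ⟨h1, rfl⟩
    exact h ((dvd_hitProd_iff hd m).2 h1)

theorem resSieve_abs_rem_le {d : ℕ} (hd : d ∣ ∏ p ∈ siftPrimes Ω Y, p) :
    |(resSieve A M Y Ω hΩ).rem d| ≤ ∏ p ∈ d.primeFactors, ((Ω p).card : ℝ) := by
  rw [rem, resSieve_multSum hd]
  have h0 : d ≠ 0 := ne_zero_of_dvd_ne_zero prod_sift_ne_zero hd
  have h1 : (resSieve A M Y Ω hΩ).nu d * (resSieve A M Y Ω hΩ).totalMass =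
      (M : ℝ) * ∏ p ∈ d.primeFactors, ((Ω p).card : ℝ) / p := by
    change resNu Ω d * (M : ℝ) = _
    rw [resNu, ArithmeticFunction.prodPrimeFactors_apply h0, mul_comm]
  rw [h1]
  refine abs_card_residues_sub_le A M d.primeFactors
    (fun p hp => Nat.prime_of_mem_primeFactors hp) Ω fun p hp => ?_
  have h2 := (dvd_prod_primes_iff (siftPrimes_prime (Ω := Ω) (Y := Y))
    (Nat.prime_of_mem_primeFactors hp)).1 ((Nat.dvd_of_mem_primeFactors hp).trans hd)
  exact (hΩ p (Nat.prime_of_mem_primeFactors hp) (mem_siftPrimes.1 h2).1).1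

theorem resSieve_siftedSum :
    (resSieve A M Y Ω hΩ).siftedSum =
      (((Ioc A (A + M)).filter (fun m => ∀ p ∈ siftPrimes Ω Y, m % p ∉ Ω p)).card : ℝ) := by
  rw [siftedSum]
  change (∑ d ∈ (∏ p ∈ siftPrimes Ω Y, p).divisors,
    if Nat.Coprime (∏ p ∈ siftPrimes Ω Y, p) d then
      (((Ioc A (A + M)).filter (fun m => hitProd Ω Y m = d)).card : ℝ) else 0) = _
  rw [sum_eq_single 1]
  · rw [if_pos (Nat.coprime_one_right _)]
    congr 2
    refine filter_congr fun m _ => ?_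
    constructor
    · intro h p hp hmem
      have : p ∣ hitProd Ω Y m := by
        refine (dvd_hitProd_iff (dvd_prod_of_mem _ hp) m).2 ?_
        intro q hq
        rw [(siftPrimes_prime p hp).primeFactors, mem_singleton] at hq
        rw [hq]; exact hmem
      rw [h] at this
      exact (siftPrimes_prime p hp).one_lt.ne' (Nat.dvd_one.1 this)
    · intro h
      rw [hitProd, filter_eq_empty_iff.2 (fun p hp => h p hp), prod_empty]
  · intro d hd hd1
    rw [if_neg]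
    intro hc
    have := Nat.dvd_of_mem_divisors hd
    exact hd1 (hc.symm.eq_one_of_dvd this)
  · intro h
    exact absurd (Nat.mem_divisors.2 ⟨one_dvd _, prod_sift_ne_zero⟩) h

/-- the local densities `∏_{p ∣ l} ρ(p)/(p - ρ(p))`. -/
def hterm (Ω : ℕ → Finset ℕ) (l : ℕ) : ℝ :=
  ∏ p ∈ l.primeFactors, ((Ω p).card : ℝ) / ((p : ℝ) - (Ω p).card)

theorem resSieve_selbergTerms {l : ℕ} (hl : l ∣ ∏ p ∈ siftPrimes Ω Y, p) :
    (resSieve A M Y Ω hΩ).selbergTerms l = hterm Ω l := by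
  have h0 : l ≠ 0 := ne_zero_of_dvd_ne_zero prod_sift_ne_zero hl
  rw [selbergTerms_apply]
  change resNu Ω l * ∏ p ∈ l.primeFactors, (1 - resNu Ω p)⁻¹ = _
  rw [resNu, ArithmeticFunction.prodPrimeFactors_apply h0, hterm, ← prod_mul_distrib]
  refine prod_congr rfl fun p hp => ?_
  have hpp := Nat.prime_of_mem_primeFactors hp
  have h1 := resNu_prime Ω hpp
  rw [resNu] at h1
  rw [h1]
  have hp0 : (p : ℝ) ≠ 0 := by exact_mod_cast hpp.ne_zero
  have h2 := (dvd_prod_primes_iff (siftPrimes_prime (Ω := Ω) (Y := Y)) hpp).1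
    ((Nat.dvd_of_mem_primeFactors hp).trans hl)
  have h3 := (hΩ p hpp (mem_siftPrimes.1 h2).1).2
  have h4 : (p : ℝ) - (Ω p).card ≠ 0 := by
    have : ((Ω p).card : ℝ) < p := by exact_mod_cast h3
    exact (sub_pos.2 this).ne'
  have h5 : (1 : ℝ) - ((Ω p).card : ℝ) / p = ((p : ℝ) - (Ω p).card) / p := by
    field_simp
  rw [h5, inv_div]
  field_simp

theorem hterm_nonneg (hΩ : ∀ p, p.Prime → p ≤ Y → (∀ c ∈ Ω p, c < p) ∧ (Ω p).card < p)
    {l : ℕ} (hl : l ≤ Y) (hl0 : l ≠ 0) : 0 ≤ hterm Ω l := by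
  refine prod_nonneg fun p hp => ?_
  have hpp := Nat.prime_of_mem_primeFactors hp
  have hpY : p ≤ Y := (Nat.le_of_dvd (Nat.pos_of_ne_zero hl0)
    (Nat.dvd_of_mem_primeFactors hp)).trans hl
  have h3 : ((Ω p).card : ℝ) < p := by exact_mod_cast (hΩ p hpp hpY).2
  have h4 : (0 : ℝ) < (p : ℝ) - (Ω p).card := sub_pos.2 h3
  positivity

theorem resSieve_selG :
    selG (resSieve A M Y Ω hΩ) Y = ∑ l ∈ (Icc 1 Y).filter Squarefree, hterm Ω l := by
  rw [selG]
  have h1 : ∀ l ∈ divY (resSieve A M Y Ω hΩ) Y,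
      (resSieve A M Y Ω hΩ).selbergTerms l = hterm Ω l :=
    fun l hl => resSieve_selbergTerms (mem_divY.1 hl).1
  rw [sum_congr rfl h1]
  refine sum_subset ?_ ?_
  · intro l hl
    have h2 := mem_divY.1 hl
    rw [mem_filter, mem_Icc]
    refine ⟨⟨Nat.pos_of_ne_zero (ne_zero_of_dvd_ne_zero prod_sift_ne_zero h2.1), h2.2⟩, ?_⟩
    exact Squarefree.squarefree_of_dvd h2.1 (squarefree_prod_primes siftPrimes_prime)
  · intro l hl hl'
    rw [mem_filter, mem_Icc] at hl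
    -- some prime of `l` is not sifted
    by_contra hne
    apply hl'
    refine mem_divY.2 ⟨?_, hl.1.2⟩
    change l ∣ ∏ p ∈ siftPrimes Ω Y, p
    rw [← Nat.prod_primeFactors_of_squarefree hl.2]
    refine prod_dvd_prod_of_subset _ _ _ fun p hp => ?_
    have hpp := Nat.prime_of_mem_primeFactors hp
    rw [mem_siftPrimes]
    refine ⟨(Nat.le_of_dvd hl.1.1 (Nat.dvd_of_mem_primeFactors hp)).trans hl.1.2, hpp, ?_⟩
    by_contra hemp
    rw [not_nonempty_iff_eq_empty] at hemp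
    apply hne
    rw [hterm]
    refine prod_eq_zero hp ?_
    rw [hemp]; simp

theorem resSieve_abs_selW_le (hY : 1 ≤ Y) {d : ℕ} (hd : d ∣ ∏ p ∈ siftPrimes Ω Y, p) :
    |selW (resSieve A M Y Ω hΩ) Y d| ≤ d := by
  refine (abs_selW_le hY hd).trans ?_
  have hsq : Squarefree d :=
    Squarefree.squarefree_of_dvd hd (squarefree_prod_primes siftPrimes_prime)
  have h1 : (d : ℝ) = ∏ p ∈ d.primeFactors, (p : ℝ) := by
    conv_lhs => rw [← Nat.prod_primeFactors_of_squarefree hsq]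
    push_cast; rfl
  rw [h1]
  refine prod_le_prod (fun p hp => ?_) (fun p hp => ?_)
  all_goals
    have hpp := Nat.prime_of_mem_primeFactors hp
    have h2 := (dvd_prod_primes_iff (siftPrimes_prime (Ω := Ω) (Y := Y)) hpp).1
      ((Nat.dvd_of_mem_primeFactors hp).trans hd)
    have h3 := (hΩ p hpp (mem_siftPrimes.1 h2).1).2
    have h4 : (resSieve A M Y Ω hΩ).nu p = ((Ω p).card : ℝ) / p := resNu_prime Ω hpp
    rw [h4]
    have hp0 : (0 : ℝ) < p := by exact_mod_cast hpp.pos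
    have h5 : ((Ω p).card : ℝ) + 1 ≤ p := by exact_mod_cast h3
    have h6 : (1 : ℝ) - ((Ω p).card : ℝ) / p = ((p : ℝ) - (Ω p).card) / p := by
      field_simp
    rw [h6, inv_div]
  · have : (0 : ℝ) < (p : ℝ) - (Ω p).card := by linarith
    positivity
  · refine div_le_self hp0.le (by linarith)

/-- **Selberg's sieve in the form of the arithmetic large sieve** (with crude error term). -/
theorem residue_sieve {A M Y : ℕ} {Ω : ℕ → Finset ℕ} (hY : 1 ≤ Y)
    (hΩ : ∀ p, Nat.Prime p → p ≤ Y → (∀ c ∈ Ω p, c < p) ∧ (Ω p).card < p)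
    (B : Finset ℕ) (hB1 : B ⊆ Ioc A (A + M))
    (hB2 : ∀ m ∈ B, ∀ p, Nat.Prime p → p ≤ Y → m % p ∉ Ω p) :
    (B.card : ℝ) ≤
      (M : ℝ) / (∑ l ∈ (Icc 1 Y).filter Squarefree, hterm Ω l) + (Y : ℝ) ^ 6 := by
  have h1 := siftedSum_le_selberg (s := resSieve A M Y Ω hΩ) (Y := Y) hY
  rw [resSieve_siftedSum, resSieve_selG] at h1
  have h0 : (B.card : ℝ) ≤
      (((Ioc A (A + M)).filter (fun m => ∀ p ∈ siftPrimes Ω Y, m % p ∉ Ω p)).card : ℝ) := by
    have : B ⊆ ((Ioc A (A + M)).filter (fun m => ∀ p ∈ siftPrimes Ω Y, m % p ∉ Ω p)) := by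
      intro m hm
      rw [mem_filter]
      exact ⟨hB1 hm, fun p hp => hB2 m hm p (mem_siftPrimes.1 hp).2.1 (mem_siftPrimes.1 hp).1⟩
    exact_mod_cast card_le_card this
  refine h0.trans (h1.trans (add_le_add le_rfl ?_))
  have h2 : ∀ d1 ∈ divY (resSieve A M Y Ω hΩ) Y, ∀ d2 ∈ divY (resSieve A M Y Ω hΩ) Y,
      |selW (resSieve A M Y Ω hΩ) Y d1| * |selW (resSieve A M Y Ω hΩ) Y d2| *
        |(resSieve A M Y Ω hΩ).rem (d1.lcm d2)| ≤ (Y : ℝ) ^ 2 * (Y : ℝ) ^ 2 := by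
    intro d1 hd1 d2 hd2
    have e1 := mem_divY.1 hd1
    have e2 := mem_divY.1 hd2
    have hl : d1.lcm d2 ∣ ∏ p ∈ siftPrimes Ω Y, p := Nat.lcm_dvd e1.1 e2.1
    have b1 : |selW (resSieve A M Y Ω hΩ) Y d1| ≤ Y :=
      (resSieve_abs_selW_le hY e1.1).trans (by exact_mod_cast e1.2)
    have b2 : |selW (resSieve A M Y Ω hΩ) Y d2| ≤ Y :=
      (resSieve_abs_selW_le hY e2.1).trans (by exact_mod_cast e2.2)
    have hsq : Squarefree (d1.lcm d2) :=
      Squarefree.squarefree_of_dvd hl (squarefree_prod_primes siftPrimes_prime)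
    have b3 : |(resSieve A M Y Ω hΩ).rem (d1.lcm d2)| ≤ (Y : ℝ) ^ 2 := by
      refine (resSieve_abs_rem_le hl).trans ?_
      have b4 : ∏ p ∈ (d1.lcm d2).primeFactors, ((Ω p).card : ℝ) ≤
          ∏ p ∈ (d1.lcm d2).primeFactors, (p : ℝ) := by
        refine prod_le_prod (fun p _ => by positivity) fun p hp => ?_
        have hpp := Nat.prime_of_mem_primeFactors hp
        have h2 := (dvd_prod_primes_iff (siftPrimes_prime (Ω := Ω) (Y := Y)) hpp).1
          ((Nat.dvd_of_mem_primeFactors hp).trans hl)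
        exact_mod_cast (hΩ p hpp (mem_siftPrimes.1 h2).1).2.le
      refine b4.trans ?_
      have b5 : ∏ p ∈ (d1.lcm d2).primeFactors, (p : ℝ) = (d1.lcm d2 : ℕ) := by
        conv_rhs => rw [← Nat.prod_primeFactors_of_squarefree hsq]
        push_cast; rfl
      rw [b5]
      have b6 : d1.lcm d2 ≤ Y * Y := by
        have : d1.lcm d2 ≤ d1 * d2 := Nat.div_le_self _ _
        exact this.trans (Nat.mul_le_mul e1.2 e2.2)
      calc ((d1.lcm d2 : ℕ) : ℝ) ≤ ((Y * Y : ℕ) : ℝ) := by exact_mod_cast b6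
        _ = (Y : ℝ) ^ 2 := by push_cast; ring
    have c1 := abs_nonneg (selW (resSieve A M Y Ω hΩ) Y d1)
    have c2 := abs_nonneg (selW (resSieve A M Y Ω hΩ) Y d2)
    have c3 := abs_nonneg ((resSieve A M Y Ω hΩ).rem (d1.lcm d2))
    have hY0 : (0 : ℝ) ≤ Y := by positivity
    calc _ ≤ ((Y : ℝ) * Y) * (Y : ℝ) ^ 2 :=
          mul_le_mul (mul_le_mul b1 b2 c2 hY0) b3 c3 (by positivity)
      _ = _ := by ring
  have h3 : (divY (resSieve A M Y Ω hΩ) Y).card ≤ Y := by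
    have : divY (resSieve A M Y Ω hΩ) Y ⊆ Icc 1 Y := by
      intro d hd
      have e := mem_divY.1 hd
      rw [mem_Icc]
      exact ⟨Nat.pos_of_ne_zero (ne_zero_of_dvd_ne_zero prod_sift_ne_zero e.1), e.2⟩
    simpa using card_le_card this
  have h3' : ((divY (resSieve A M Y Ω hΩ) Y).card : ℝ) ≤ Y := by exact_mod_cast h3
  calc (∑ d1 ∈ divY (resSieve A M Y Ω hΩ) Y, ∑ d2 ∈ divY (resSieve A M Y Ω hΩ) Y,
        |selW (resSieve A M Y Ω hΩ) Y d1| * |selW (resSieve A M Y Ω hΩ) Y d2| *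
          |(resSieve A M Y Ω hΩ).rem (d1.lcm d2)|)
      ≤ ∑ d1 ∈ divY (resSieve A M Y Ω hΩ) Y, ∑ d2 ∈ divY (resSieve A M Y Ω hΩ) Y,
          (Y : ℝ) ^ 2 * (Y : ℝ) ^ 2 :=
        sum_le_sum fun d1 hd1 => sum_le_sum fun d2 hd2 => h2 d1 hd1 d2 hd2
    _ = ((divY (resSieve A M Y Ω hΩ) Y).card : ℝ) * (((divY (resSieve A M Y Ω hΩ) Y).card : ℝ) *
          ((Y : ℝ) ^ 2 * (Y : ℝ) ^ 2)) := by
        rw [sum_const, sum_const, nsmul_eq_mul, nsmul_eq_mul]
    _ ≤ (Y : ℝ) * ((Y : ℝ) * ((Y : ℝ) ^ 2 * (Y : ℝ) ^ 2)) := by gcongr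
    _ = _ := by ring

end

end

end Pool.Agent.Helper24
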