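import Mathlib
import Pool.Agent.Helper24.ResidueSieve

/-!
# Lower bounds for the Selberg denominator
-/

set_option autoImplicit false

namespace Pool.Agent.Helper24

open Finset

noncomputable section

/-- squarefree numbers up to `Y` -/
def sqf (Y : ℕ) : Finset ℕ := (Icc 1 Y).filter Squarefree

theorem mem_sqf {Y l : ℕ} : l ∈ sqf Y ↔ (1 ≤ l ∧ l ≤ Y) ∧ Squarefree l := by
  rw [sqf, mem_filter, mem_Icc]

/-- sum over squarefree numbers of the product of a prime function -/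
def Fsum (Y : ℕ) (g : ℕ → ℝ) : ℝ := ∑ l ∈ sqf Y, ∏ p ∈ l.primeFactors, g p

theorem Fsum_mono (Y : ℕ) {g g' : ℕ → ℝ} (h0 : ∀ p, p.Prime → p ≤ Y → 0 ≤ g p)
    (h : ∀ p, p.Prime → p ≤ Y → g p ≤ g' p) : Fsum Y g ≤ Fsum Y g' := by
  refine sum_le_sum fun l hl => ?_
  rw [mem_sqf] at hl
  have hle : ∀ p ∈ l.primeFactors, p ≤ Y := fun p hp =>
    (Nat.le_of_dvd hl.1.1 (Nat.dvd_of_mem_primeFactors hp)).trans hl.1.2
  exact prod_le_prod (fun p hp => h0 p (Nat.prime_of_mem_primeFactors hp) (hle p hp))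
    (fun p hp => h p (Nat.prime_of_mem_primeFactors hp) (hle p hp))

theorem Fsum_step (Y : ℕ) {g : ℕ → ℝ} (h0 : ∀ p, p.Prime → p ≤ Y → 0 ≤ g p) {q : ℕ}
    (hq : q.Prime) {u : ℝ} (hu : 0 ≤ u) :
    Fsum Y (fun p => g p + if p = q then u else 0) ≤ (1 + u) * Fsum Y g := by
  have hnn : ∀ l ∈ sqf Y, 0 ≤ ∏ p ∈ l.primeFactors, g p := by
    intro l hl
    rw [mem_sqf] at hl
    refine prod_nonneg fun p hp => h0 p (Nat.prime_of_mem_primeFactors hp) ?_
    exact (Nat.le_of_dvd hl.1.1 (Nat.dvd_of_mem_primeFactors hp)).trans hl.1.2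
  have h1 : ∀ l ∈ sqf Y, (∏ p ∈ l.primeFactors, (g p + if p = q then u else 0)) =
      (∏ p ∈ l.primeFactors, g p) + if q ∣ l then u * ∏ p ∈ (l / q).primeFactors, g p else 0 := by
    intro l hl
    rw [mem_sqf] at hl
    have hl0 : l ≠ 0 := by omega
    by_cases hql : q ∣ l
    · have hqm : q ∈ l.primeFactors := Nat.mem_primeFactors.2 ⟨hq, hql, hl0⟩
      have hpf : (l / q).primeFactors = l.primeFactors.erase q := by
        have hmul : q * (l / q) = l := Nat.mul_div_cancel' hql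
        have hsq : Squarefree (q * (l / q)) := by rw [hmul]; exact hl.2
        have hcop := Nat.coprime_of_squarefree_mul hsq
        have h2 : l.primeFactors = q.primeFactors ∪ (l / q).primeFactors := by
          conv_lhs => rw [← hmul]
          exact hcop.primeFactors_mul
        rw [h2, hq.primeFactors]
        ext p
        simp only [mem_erase, mem_union, mem_singleton]
        constructor
        · intro hp
          refine ⟨?_, Or.inr hp⟩
          rintro rfl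
          have := Nat.dvd_of_mem_primeFactors hp
          exact hq.one_lt.ne' (Nat.eq_one_of_dvd_coprimes hcop dvd_rfl this)
        · rintro ⟨h3, h4 | h4⟩
          · exact absurd h4 h3
          · exact h4
      rw [if_pos hql, hpf, ← mul_prod_erase _ _ hqm, ← mul_prod_erase _ g hqm]
      have h5 : ∏ p ∈ l.primeFactors.erase q, (g p + if p = q then u else 0) =
          ∏ p ∈ l.primeFactors.erase q, g p := by
        refine prod_congr rfl fun p hp => ?_
        rw [if_neg (ne_of_mem_erase hp), add_zero]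
      rw [h5]
      simp only [if_true]
      ring
    · rw [if_neg hql, add_zero]
      refine prod_congr rfl fun p hp => ?_
      rw [if_neg, add_zero]
      rintro rfl
      exact hql (Nat.dvd_of_mem_primeFactors hp)
  rw [Fsum, sum_congr rfl h1, sum_add_distrib, add_mul, one_mul]
  refine add_le_add le_rfl ?_
  rw [← sum_filter, ← mul_sum]
  refine mul_le_mul_of_nonneg_left ?_ hu
  have hinj : Set.InjOn (fun l => l / q) (↑((sqf Y).filter (fun l => q ∣ l)) : Set ℕ) := by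
    intro a ha b hb hab
    rw [mem_coe, mem_filter] at ha hb
    have h3 : a / q = b / q := hab
    rw [← Nat.mul_div_cancel' ha.2, ← Nat.mul_div_cancel' hb.2, h3]
  rw [← sum_image (f := fun l => ∏ p ∈ l.primeFactors, g p) hinj]
  refine sum_le_sum_of_subset_of_nonneg ?_ fun l hl _ => hnn l hl
  intro m hm
  rw [mem_image] at hm
  obtain ⟨l, hl, rfl⟩ := hm
  rw [mem_filter, mem_sqf] at hl
  rw [mem_sqf]
  refine ⟨⟨Nat.div_pos (Nat.le_of_dvd hl.1.1.1 hl.2) hq.pos, (Nat.div_le_self _ _).trans hl.1.1.2⟩,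
    ?_⟩
  exact hl.1.2.squarefree_of_dvd (Nat.div_dvd_of_dvd hl.2)

theorem Fsum_add_le (Y : ℕ) {g : ℕ → ℝ} (h0 : ∀ p, p.Prime → p ≤ Y → 0 ≤ g p)
    (S : Finset ℕ) (hS : ∀ p ∈ S, p.Prime) (u : ℕ → ℝ) (hu : ∀ p ∈ S, 0 ≤ u p) :
    Fsum Y (fun p => g p + if p ∈ S then u p else 0) ≤ (∏ p ∈ S, (1 + u p)) * Fsum Y g := by
  classical
  induction S using Finset.induction_on with
  | empty => simp
  | insert q S hqS ih =>
    have ih' := ih (fun p hp => hS p (mem_insert_of_mem hp))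
      (fun p hp => hu p (mem_insert_of_mem hp))
    have huq := hu q (mem_insert_self _ _)
    rw [prod_insert hqS]
    have h1 : (fun p => g p + if p ∈ insert q S then u p else 0) =
        (fun p => (g p + if p ∈ S then u p else 0) + if p = q then u q else 0) := by
      funext p
      by_cases hp : p = q
      · subst hp
        simp [hqS]
      · simp [hp]
    rw [h1]
    have h2 : ∀ p, p.Prime → p ≤ Y → 0 ≤ g p + if p ∈ S then u p else 0 := by
      intro p hp hpY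
      have := h0 p hp hpY
      split_ifs with h
      · have := hu p (mem_insert_of_mem h)
        linarith
      · linarith
    refine (Fsum_step Y h2 (hS q (mem_insert_self _ _)) huq).trans ?_
    rw [mul_assoc]
    exact mul_le_mul_of_nonneg_left ih' (by linarith)

theorem prod_inv_primeFactors {l : ℕ} (hl : Squarefree l) :
    ∏ p ∈ l.primeFactors, (1 / (p : ℝ)) = 1 / (l : ℝ) := by
  rw [prod_div_distrib, prod_const_one]
  congr 1
  conv_rhs => rw [← Nat.prod_primeFactors_of_squarefree hl]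
  push_cast; rfl

theorem Fsum_inv_eq (Y : ℕ) : Fsum Y (fun p => 1 / (p : ℝ)) = ∑ a ∈ sqf Y, 1 / (a : ℝ) :=
  sum_congr rfl fun _ hl => prod_inv_primeFactors (mem_sqf.1 hl).2

theorem sum_inv_sq_le_two (Y : ℕ) : ∑ b ∈ Icc 1 Y, 1 / (b : ℝ) ^ 2 ≤ 2 := by
  have h := sum_Ioo_inv_sq_le (α := ℝ) 0 (Y + 1)
  have h2 : Ioo 0 (Y + 1) = Icc 1 Y := by
    ext x; simp only [mem_Ioo, mem_Icc]; omega
  rw [h2] at h
  simpa [one_div] using h

theorem log_le_two_mul_Fsum_inv (Y : ℕ) :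
    Real.log Y ≤ 2 * Fsum Y (fun p => 1 / (p : ℝ)) := by
  classical
  rw [Fsum_inv_eq]
  have h1 : Real.log Y ≤ ∑ n ∈ Icc 1 Y, 1 / (n : ℝ) := by
    have := log_le_harmonic_floor (Y : ℝ) (by positivity)
    rw [Nat.floor_natCast, harmonic_eq_sum_Icc] at this
    push_cast at this
    simpa [one_div] using this
  have hch : ∀ n : ℕ, ∃ ab : ℕ × ℕ, 0 < n → (0 < ab.1 ∧ 0 < ab.2 ∧ ab.2 ^ 2 * ab.1 = n ∧
      Squarefree ab.1) := by
    intro n
    by_cases hn : 0 < n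
    · obtain ⟨a, b, h⟩ := Nat.sq_mul_squarefree_of_pos hn
      exact ⟨(a, b), fun _ => h⟩
    · exact ⟨(0, 0), fun h => absurd h hn⟩
  choose φ hφ using hch
  have h2 : ∑ n ∈ Icc 1 Y, 1 / (n : ℝ) ≤ ∑ ab ∈ (sqf Y) ×ˢ (Icc 1 Y),
      (1 / (ab.1 : ℝ)) * (1 / (ab.2 : ℝ) ^ 2) := by
    have e1 : ∀ n ∈ Icc 1 Y, 1 / (n : ℝ) = (1 / ((φ n).1 : ℝ)) * (1 / ((φ n).2 : ℝ) ^ 2) := by
      intro n hn
      rw [mem_Icc] at hn
      have h3 := (hφ n hn.1).2.2.1
      have h4 : (n : ℝ) = ((φ n).2 : ℝ) ^ 2 * (φ n).1 := by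
        conv_lhs => rw [← h3]
        push_cast; ring
      rw [h4, ← one_div_mul_one_div, mul_comm]
    rw [sum_congr rfl e1]
    have hinj : Set.InjOn φ (↑(Icc 1 Y) : Set ℕ) := by
      intro n hn m hm hnm
      rw [mem_coe, mem_Icc] at hn hm
      rw [← (hφ n hn.1).2.2.1, ← (hφ m hm.1).2.2.1, hnm]
    rw [← sum_image (f := fun ab : ℕ × ℕ => (1 / (ab.1 : ℝ)) * (1 / (ab.2 : ℝ) ^ 2)) hinj]
    refine sum_le_sum_of_subset_of_nonneg ?_ fun ab _ _ => by positivity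
    intro ab hab
    rw [mem_image] at hab
    obtain ⟨n, hn, rfl⟩ := hab
    rw [mem_Icc] at hn
    obtain ⟨h3, h4, h5, h6⟩ := hφ n hn.1
    rw [mem_product, mem_sqf, mem_Icc]
    have hn0 : 0 < n := hn.1
    have ha : (φ n).1 ≤ n := Nat.le_of_dvd hn0 (Dvd.intro_left _ h5)
    have hb : (φ n).2 ≤ n := by
      have : (φ n).2 ^ 2 ∣ n := Dvd.intro _ h5
      have h7 : (φ n).2 ^ 2 ≤ n := Nat.le_of_dvd hn0 this
      nlinarith
    exact ⟨⟨⟨h3, ha.trans hn.2⟩, h6⟩, h4, hb.trans hn.2⟩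
  rw [sum_product] at h2
  have h3 : ∑ a ∈ sqf Y, ∑ b ∈ Icc 1 Y, (1 / (a : ℝ)) * (1 / (b : ℝ) ^ 2) =
      (∑ a ∈ sqf Y, 1 / (a : ℝ)) * ∑ b ∈ Icc 1 Y, 1 / (b : ℝ) ^ 2 := by
    rw [sum_mul_sum]
  rw [h3] at h2
  have h4 : (0 : ℝ) ≤ ∑ a ∈ sqf Y, 1 / (a : ℝ) := sum_nonneg fun _ _ => by positivity
  have h5 := sum_inv_sq_le_two Y
  nlinarith

/-- sums over divisors pairs with given lcm -/
def lcmSum (n : ℕ) : ℝ :=
  ∑ a ∈ n.divisors, ∑ b ∈ n.divisors, if a.lcm b = n then (1 / (a : ℝ)) * (1 / (b : ℝ)) else 0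

theorem sum_lcmSum {n : ℕ} (hn : n ≠ 0) :
    ∑ l ∈ n.divisors, lcmSum l = (∑ a ∈ n.divisors, 1 / (a : ℝ)) ^ 2 := by
  have h1 : ∀ l ∈ n.divisors, lcmSum l = ∑ a ∈ n.divisors, ∑ b ∈ n.divisors,
      if a.lcm b = l then (1 / (a : ℝ)) * (1 / (b : ℝ)) else 0 := by
    intro l hl
    have hld := Nat.dvd_of_mem_divisors hl
    have hsub : l.divisors ⊆ n.divisors := Nat.divisors_subset_of_dvd hn hld
    have hl0 : l ≠ 0 := ne_zero_of_dvd_ne_zero hn hld
    rw [lcmSum]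
    have e1 : ∀ a ∈ l.divisors, (∑ b ∈ l.divisors,
        if a.lcm b = l then (1 / (a : ℝ)) * (1 / (b : ℝ)) else 0) =
        ∑ b ∈ n.divisors, if a.lcm b = l then (1 / (a : ℝ)) * (1 / (b : ℝ)) else 0 := by
      intro a _
      refine sum_subset hsub fun b _ hb => ?_
      rw [if_neg]
      intro h
      exact hb (Nat.mem_divisors.2 ⟨h ▸ Nat.dvd_lcm_right a b, hl0⟩)
    rw [sum_congr rfl e1]
    refine sum_subset hsub fun a _ ha => ?_
    refine sum_eq_zero fun b _ => ?_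
    rw [if_neg]
    intro h
    exact ha (Nat.mem_divisors.2 ⟨h ▸ Nat.dvd_lcm_left a b, hl0⟩)
  rw [sum_congr rfl h1, sum_comm, sq, sum_mul]
  refine sum_congr rfl fun a ha => ?_
  rw [sum_comm, mul_sum]
  refine sum_congr rfl fun b hb => ?_
  rw [sum_ite_eq_of_mem]
  rw [Nat.mem_divisors]
  exact ⟨Nat.lcm_dvd (Nat.dvd_of_mem_divisors ha) (Nat.dvd_of_mem_divisors hb), hn⟩

theorem lcmSum_eq {n : ℕ} (hn : Squarefree n) :
    lcmSum n = ∏ p ∈ n.primeFactors, (2 / (p : ℝ) + 1 / (p : ℝ) ^ 2) := by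
  induction n using Nat.strong_induction_on with
  | _ n ih =>
    have hn0 := hn.ne_zero
    have h1 := sum_lcmSum hn0
    set f2 : ArithmeticFunction ℝ :=
      ArithmeticFunction.prodPrimeFactors (fun p => 2 / (p : ℝ) + 1 / (p : ℝ) ^ 2) with hf2
    set f1 : ArithmeticFunction ℝ :=
      ArithmeticFunction.prodPrimeFactors (fun p => 1 / (p : ℝ)) with hf1
    have hv2 : ∀ p : ℕ, p.Prime → f2 p = 2 / (p : ℝ) + 1 / (p : ℝ) ^ 2 := by
      intro p hp
      rw [hf2, ArithmeticFunction.prodPrimeFactors_apply hp.ne_zero, hp.primeFactors,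
        prod_singleton]
    have hv1 : ∀ p : ℕ, p.Prime → f1 p = 1 / (p : ℝ) := by
      intro p hp
      rw [hf1, ArithmeticFunction.prodPrimeFactors_apply hp.ne_zero, hp.primeFactors,
        prod_singleton]
    have h2 := (ArithmeticFunction.IsMultiplicative.prodPrimeFactors
      (fun p : ℕ => 2 / (p : ℝ) + 1 / (p : ℝ) ^ 2)).prodPrimeFactors_one_add_of_squarefree hn
    have h3 := (ArithmeticFunction.IsMultiplicative.prodPrimeFactors
      (fun p : ℕ => 1 / (p : ℝ))).prodPrimeFactors_one_add_of_squarefree hn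
    rw [← hf2] at h2
    rw [← hf1] at h3
    have h4 : ∑ a ∈ n.divisors, 1 / (a : ℝ) = ∏ p ∈ n.primeFactors, (1 + f1 p) := by
      rw [h3]
      refine sum_congr rfl fun a ha => ?_
      have had := Nat.dvd_of_mem_divisors ha
      rw [hf1, ArithmeticFunction.prodPrimeFactors_apply (ne_zero_of_dvd_ne_zero hn0 had),
        prod_inv_primeFactors (hn.squarefree_of_dvd had)]
    have h5 : (∏ p ∈ n.primeFactors, (1 + f1 p)) ^ 2 = ∏ p ∈ n.primeFactors, (1 + f2 p) := by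
      rw [← prod_pow]
      refine prod_congr rfl fun p hp => ?_
      rw [hv1 p (Nat.prime_of_mem_primeFactors hp), hv2 p (Nat.prime_of_mem_primeFactors hp)]
      ring
    rw [h4, h5, h2] at h1
    have h6 : ∀ l ∈ n.divisors.erase n, lcmSum l = f2 l := by
      intro l hl
      rw [mem_erase] at hl
      have hld := Nat.dvd_of_mem_divisors hl.2
      have hlt : l < n := lt_of_le_of_ne (Nat.le_of_dvd (Nat.pos_of_ne_zero hn0) hld) hl.1
      rw [ih l hlt (hn.squarefree_of_dvd hld), hf2,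
        ArithmeticFunction.prodPrimeFactors_apply (ne_zero_of_dvd_ne_zero hn0 hld)]
    have hmem : n ∈ n.divisors := Nat.mem_divisors_self n hn0
    rw [← add_sum_erase _ _ hmem, ← add_sum_erase _ (fun l => f2 l) hmem, sum_congr rfl h6] at h1
    have h7 : lcmSum n = f2 n := by linarith
    rw [h7, hf2, ArithmeticFunction.prodPrimeFactors_apply hn0]

theorem sq_Fsum_inv_le (Z : ℕ) :
    (Fsum Z (fun p => 1 / (p : ℝ))) ^ 2 ≤
      Fsum (Z ^ 2) (fun p => 2 / (p : ℝ) + 1 / (p : ℝ) ^ 2) := by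
  classical
  rw [Fsum_inv_eq, sq, sum_mul_sum, ← sum_product']
  have h1 : Fsum (Z ^ 2) (fun p => 2 / (p : ℝ) + 1 / (p : ℝ) ^ 2) =
      ∑ l ∈ sqf (Z ^ 2), lcmSum l :=
    sum_congr rfl fun l hl => (lcmSum_eq (mem_sqf.1 hl).2).symm
  rw [h1]
  have hmaps : ∀ x ∈ sqf Z ×ˢ sqf Z, x.1.lcm x.2 ∈ sqf (Z ^ 2) := by
    intro x hx
    rw [mem_product, mem_sqf, mem_sqf] at hx
    obtain ⟨⟨⟨a1, a2⟩, a3⟩, ⟨b1, b2⟩, b3⟩ := hx
    rw [mem_sqf]
    refine ⟨⟨Nat.lcm_pos a1 b1, ?_⟩, ?_⟩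
    · calc x.1.lcm x.2 ≤ x.1 * x.2 := Nat.div_le_self _ _
        _ ≤ Z * Z := Nat.mul_le_mul a2 b2
        _ = Z ^ 2 := (sq Z).symm
    · have hl0 : x.1.lcm x.2 ≠ 0 := (Nat.lcm_pos a1 b1).ne'
      refine (Nat.squarefree_iff_factorization_le_one hl0).2 fun p => ?_
      have ha0 : x.1 ≠ 0 := by omega
      have hb0 : x.2 ≠ 0 := by omega
      rw [Nat.factorization_lcm ha0 hb0, Finsupp.sup_apply]
      exact sup_le ((Nat.squarefree_iff_factorization_le_one ha0).1 a3 p)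
        ((Nat.squarefree_iff_factorization_le_one hb0).1 b3 p)
  rw [← sum_fiberwise_of_maps_to hmaps]
  refine sum_le_sum fun l hl => ?_
  have hl0 : l ≠ 0 := (mem_sqf.1 hl).2.ne_zero
  rw [lcmSum, ← sum_product', ← sum_filter]
  refine sum_le_sum_of_subset_of_nonneg ?_ fun _ _ _ => by positivity
  intro x hx
  rw [mem_filter] at hx ⊢
  refine ⟨?_, hx.2⟩
  rw [mem_product, Nat.mem_divisors, Nat.mem_divisors]
  exact ⟨⟨hx.2 ▸ Nat.dvd_lcm_left _ _, hl0⟩, hx.2 ▸ Nat.dvd_lcm_right _ _, hl0⟩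

end

end Pool.Agent.Helper24
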