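import Mathlib
import Pool.Agent.Helper24.SieveDensity
import Pool.Agent.Helper24.Mertens

/-!
# Upper bound for prime pairs
-/

set_option autoImplicit false

namespace Pool.Agent.Helper24

open Finset Nat

noncomputable section

/-- forbidden classes for `n` and `n + h` both free of small primes -/
def pairΩ (h p : ℕ) : Finset ℕ := {0, (p - h % p) % p}

theorem mem_pairΩ {h p m : ℕ} (hp : 0 < p) :
    m % p ∈ pairΩ h p ↔ (p ∣ m ∨ p ∣ m + h) := by
  rw [pairΩ, mem_insert, mem_singleton, Nat.dvd_iff_mod_eq_zero, Nat.dvd_iff_mod_eq_zero]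
  refine or_congr Iff.rfl ?_
  have h1 : h % p < p := Nat.mod_lt _ hp
  constructor
  · intro h2
    have h3 : (m + h) % p = (m % p + h % p) % p := Nat.add_mod _ _ _
    rw [h3, h2, Nat.mod_add_mod]
    have : p - h % p + h % p = p := by omega
    rw [this, Nat.mod_self]
  · intro h2
    rw [Nat.add_mod] at h2
    have h4 : m % p < p := Nat.mod_lt _ hp
    by_cases h5 : h % p = 0
    · rw [h5, add_zero, Nat.mod_mod] at h2
      rw [h5, Nat.sub_zero, Nat.mod_self]; exact h2
    · have h6 : m % p + h % p = p := by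
        obtain ⟨c, hc⟩ := Nat.dvd_of_mod_eq_zero h2
        have h7 : c < 2 := by
          by_contra hcon
          have : p * 2 ≤ p * c := Nat.mul_le_mul_left p (by omega)
          omega
        have h8 : c ≠ 0 := by
          rintro rfl
          omega
        have h9 : c = 1 := by omega
        rw [h9, mul_one] at hc
        exact hc
      have h7 : p - h % p < p := by omega
      rw [Nat.mod_eq_of_lt h7]
      omega

theorem pairΩ_lt {h p c : ℕ} (hp : 0 < p) (hc : c ∈ pairΩ h p) : c < p := by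
  rw [pairΩ, mem_insert, mem_singleton] at hc
  rcases hc with rfl | rfl
  · exact hp
  · exact Nat.mod_lt _ hp

theorem card_pairΩ_of_dvd {h p : ℕ} (hd : p ∣ h) : (pairΩ h p).card = 1 := by
  rw [pairΩ, Nat.mod_eq_zero_of_dvd hd, Nat.sub_zero, Nat.mod_self]
  rfl

theorem card_pairΩ_of_not_dvd {h p : ℕ} (hp : 0 < p) (hd : ¬ p ∣ h) : (pairΩ h p).card = 2 := by
  rw [pairΩ, card_pair]
  have h1 : h % p ≠ 0 := fun h' => hd (Nat.dvd_of_mod_eq_zero h')
  have h2 : h % p < p := Nat.mod_lt _ hp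
  rw [Nat.mod_eq_of_lt (by omega)]
  omega

theorem card_pairΩ_lt {h p : ℕ} (hh : Even h) (hp : p.Prime) : (pairΩ h p).card < p := by
  by_cases hd : p ∣ h
  · rw [card_pairΩ_of_dvd hd]; exact hp.one_lt
  · rw [card_pairΩ_of_not_dvd hp.pos hd]
    have h2 : p ≠ 2 := by
      rintro rfl
      exact hd hh.two_dvd
    have := hp.two_le
    omega

/-- lower bound of the Selberg denominator for prime pairs. -/
theorem pair_density {h : ℕ} (hh : Even h) (hh0 : h ≠ 0) (Z : ℕ) :
    (Real.log Z) ^ 2 / 4 ≤ (∏ p ∈ h.primeFactors, (1 + 1 / (p : ℝ))) *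
      ∑ l ∈ (Icc 1 (Z ^ 2)).filter Squarefree, hterm (pairΩ h) l := by
  have h1 := log_le_two_mul_Fsum_inv Z
  have h2 := sq_Fsum_inv_le Z
  have hlog : 0 ≤ Real.log Z := Real.log_natCast_nonneg Z
  have h3 : (Real.log Z) ^ 2 / 4 ≤ (Fsum Z (fun p => 1 / (p : ℝ))) ^ 2 := by
    have : Real.log Z ^ 2 ≤ (2 * Fsum Z (fun p => 1 / (p : ℝ))) ^ 2 := by gcongr
    nlinarith
  refine h3.trans (h2.trans ?_)
  set g : ℕ → ℝ := fun p => ((pairΩ h p).card : ℝ) / ((p : ℝ) - (pairΩ h p).card) with hg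
  have hg0 : ∀ p, p.Prime → 0 ≤ g p := by
    intro p hp
    have : ((pairΩ h p).card : ℝ) < p := by exact_mod_cast card_pairΩ_lt hh hp
    have : (0 : ℝ) < (p : ℝ) - (pairΩ h p).card := sub_pos.2 this
    rw [hg]; positivity
  have h4 : Fsum (Z ^ 2) (fun p => 2 / (p : ℝ) + 1 / (p : ℝ) ^ 2) ≤
      Fsum (Z ^ 2) (fun p => g p + if p ∈ h.primeFactors then 1 / (p : ℝ) else 0) := by
    refine Fsum_mono _ (fun p _ _ => by positivity) fun p hp _ => ?_
    have hp0 : (0 : ℝ) < p := by exact_mod_cast hp.pos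
    by_cases hd : p ∣ h
    · rw [if_pos (Nat.mem_primeFactors.2 ⟨hp, hd, hh0⟩), hg]
      simp only
      rw [card_pairΩ_of_dvd hd]
      have hp1 : (1 : ℝ) < p := by exact_mod_cast hp.one_lt
      have hp2 : (0 : ℝ) < (p : ℝ) - 1 := by linarith
      push_cast
      have : 1 / (p : ℝ) + 1 / (p : ℝ) ^ 2 ≤ 1 / ((p : ℝ) - 1) := by
        rw [div_add_div _ _ hp0.ne' (by positivity), div_le_div_iff₀ (by positivity) hp2]
        nlinarith
      have e : 2 / (p : ℝ) = 1 / p + 1 / p := by ring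
      rw [e]
      linarith
    · have hp3 : (3 : ℝ) ≤ p := by
        have h2 : p ≠ 2 := by
          rintro rfl
          exact hd hh.two_dvd
        have := hp.two_le
        exact_mod_cast (by omega : 3 ≤ p)
      rw [if_neg (fun h' => hd (Nat.dvd_of_mem_primeFactors h')), hg, add_zero]
      simp only
      rw [card_pairΩ_of_not_dvd hp.pos hd]
      have hp2 : (0 : ℝ) < (p : ℝ) - 2 := by linarith
      push_cast
      rw [div_add_div _ _ hp0.ne' (by positivity), div_le_div_iff₀ (by positivity) hp2]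
      nlinarith
  refine h4.trans ?_
  exact Fsum_add_le _ (fun p hp _ => hg0 p hp) h.primeFactors
    (fun p hp => Nat.prime_of_mem_primeFactors hp) (fun p => 1 / (p : ℝ))
    (fun p _ => by positivity)

/-- Explicit sieve bound for prime pairs. -/
theorem card_prime_pairs_explicit {h : ℕ} (hh : Even h) (hh0 : h ≠ 0) (x Z : ℕ) (hZ : 2 ≤ Z) :
    (((primesLE x).filter (fun p => (p + h).Prime)).card : ℝ) ≤
      4 * x * (∏ p ∈ h.primeFactors, (1 + 1 / (p : ℝ))) / (Real.log Z) ^ 2 +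
        2 * (Z : ℝ) ^ 12 := by
  have hlog : 0 < Real.log Z := Real.log_pos (by exact_mod_cast (by omega : 1 < Z))
  set B := ((primesLE x).filter (fun p => (p + h).Prime)).filter (fun p => Z ^ 2 < p) with hB
  have hΩ : ∀ p, Nat.Prime p → p ≤ Z ^ 2 →
      (∀ c ∈ pairΩ h p, c < p) ∧ (pairΩ h p).card < p :=
    fun p hp _ => ⟨fun c hc => pairΩ_lt hp.pos hc, card_pairΩ_lt hh hp⟩
  have hZ2 : 1 ≤ Z ^ 2 := Nat.one_le_pow _ _ (by omega)
  have h1 := residue_sieve (A := 0) (M := x) hZ2 hΩ B ?_ ?_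
  rotate_left
  · intro p hp
    rw [hB, mem_filter, mem_filter, mem_primesLE] at hp
    rw [mem_Ioc]
    exact ⟨hp.1.1.2.pos, by omega⟩
  · intro m hm p hp hpZ
    rw [hB, mem_filter, mem_filter, mem_primesLE] at hm
    rw [mem_pairΩ hp.pos]
    rintro (hd | hd)
    · have := (Nat.prime_dvd_prime_iff_eq hp hm.1.1.2).1 hd
      omega
    · have := (Nat.prime_dvd_prime_iff_eq hp hm.1.2).1 hd
      omega
  have h2 := pair_density hh hh0 Z
  set G := ∑ l ∈ (Icc 1 (Z ^ 2)).filter Squarefree, hterm (pairΩ h) l with hG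
  set Pr := ∏ p ∈ h.primeFactors, (1 + 1 / (p : ℝ)) with hPr
  have hPr0 : 0 < Pr := prod_pos fun p _ => by positivity
  have hG0 : 0 < G := by
    by_contra hcon
    push Not at hcon
    have : Pr * G ≤ 0 := mul_nonpos_of_nonneg_of_nonpos hPr0.le hcon
    have : 0 < Real.log Z ^ 2 / 4 := by positivity
    linarith
  have h3 : (x : ℝ) / G ≤ 4 * x * Pr / (Real.log Z) ^ 2 := by
    rw [div_le_div_iff₀ hG0 (by positivity)]
    have hx : (0 : ℝ) ≤ x := by positivity
    nlinarith
  -- small primes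
  have h4 : ((primesLE x).filter (fun p => (p + h).Prime)).card ≤ B.card + Z ^ 2 := by
    rw [← card_filter_add_card_filter_not (s := (primesLE x).filter (fun p => (p + h).Prime))
      (fun p => Z ^ 2 < p)]
    refine Nat.add_le_add_left ?_ _
    have : ((primesLE x).filter (fun p => (p + h).Prime)).filter (fun p => ¬ Z ^ 2 < p) ⊆
        Icc 1 (Z ^ 2) := by
      intro p hp
      rw [mem_filter, mem_filter, mem_primesLE] at hp
      rw [mem_Icc]
      exact ⟨hp.1.1.2.pos, by omega⟩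
    simpa using card_le_card this
  have h4' : (((primesLE x).filter (fun p => (p + h).Prime)).card : ℝ) ≤ B.card + (Z : ℝ) ^ 2 := by
    exact_mod_cast h4
  have hZr : (1 : ℝ) ≤ Z := by exact_mod_cast (by omega : 1 ≤ Z)
  have h5 : (Z : ℝ) ^ 2 ≤ (Z : ℝ) ^ 12 := pow_le_pow_right₀ hZr (by norm_num)
  have h6 : (((Z ^ 2 : ℕ)) : ℝ) ^ 6 = (Z : ℝ) ^ 12 := by push_cast; ring
  rw [h6] at h1
  linarith

end

end Pool.Agent.Helper24
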