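import Mathlib

/-!
# A Cauchy-Schwarz lower bound for the size of a sumset
-/

set_option autoImplicit false

namespace Pool.Agent.Helper24

open Finset

theorem card_sq_le_card_image_mul {α β : Type*} [DecidableEq α] [DecidableEq β] (T : Finset α)
    (s : α → β) : (T.card : ℝ) ^ 2 ≤ ((T.image s).card : ℝ) *
      (((T ×ˢ T).filter (fun x => s x.1 = s x.2)).card : ℝ) := by
  have h1 : T.card = ∑ N ∈ T.image s, (T.filter (fun t => s t = N)).card :=
    card_eq_sum_card_image s T
  have h2 := sq_sum_le_card_mul_sum_sq (s := T.image s)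
    (f := fun N => ((T.filter (fun t => s t = N)).card : ℝ))
  have h3 : (((T ×ˢ T).filter (fun x => s x.1 = s x.2)).card : ℝ) =
      ∑ N ∈ T.image s, ((T.filter (fun t => s t = N)).card : ℝ) ^ 2 := by
    have h4 : ((T ×ˢ T).filter (fun x => s x.1 = s x.2)).card =
        ∑ N ∈ T.image s, (((T ×ˢ T).filter (fun x => s x.1 = s x.2)).filter
          (fun x => s x.1 = N)).card := by
      refine card_eq_sum_card_fiberwise fun x hx => ?_
      rw [mem_coe, mem_filter, mem_product] at hx
      exact mem_coe.2 (mem_image_of_mem s hx.1.1)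
    rw [h4]
    push_cast
    refine sum_congr rfl fun N _ => ?_
    have h5 : ((T ×ˢ T).filter (fun x => s x.1 = s x.2)).filter (fun x => s x.1 = N) =
        (T.filter (fun t => s t = N)) ×ˢ (T.filter (fun t => s t = N)) := by
      ext x
      simp only [mem_filter, mem_product]
      constructor
      · rintro ⟨⟨⟨a, b⟩, c⟩, d⟩
        exact ⟨⟨a, d⟩, b, c ▸ d⟩
      · rintro ⟨⟨a, d⟩, b, e⟩
        exact ⟨⟨⟨a, b⟩, d.trans e.symm⟩, d⟩
    rw [h5, card_product]
    push_cast; ring
  rw [h3]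
  have h6 : (T.card : ℝ) = ∑ N ∈ T.image s, ((T.filter (fun t => s t = N)).card : ℝ) := by
    exact_mod_cast h1
  rw [h6]
  exact h2

/-- Sumset lower bound: if for all distinct `q, q' ∈ F` there are at most `M` solutions of
`q + r = q' + r'` with `r, r' ∈ P`, then `|F+P| ≥ |F||P|²/(|P|+|F|M)`. -/
theorem card_sumset_ge (F P : Finset ℕ) (M : ℝ) (hM0 : 0 ≤ M)
    (hM : ∀ q ∈ F, ∀ q' ∈ F, q ≠ q' →
      (((P ×ˢ P).filter (fun x => q + x.1 = q' + x.2)).card : ℝ) ≤ M) :
    ((F.card : ℝ) * P.card) ^ 2 ≤ (((F ×ˢ P).image (fun x => x.1 + x.2)).card : ℝ) *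
      ((F.card : ℝ) * P.card + (F.card : ℝ) ^ 2 * M) := by
  have h1 := card_sq_le_card_image_mul (F ×ˢ P) (fun x : ℕ × ℕ => x.1 + x.2)
  rw [card_product] at h1
  push_cast at h1
  refine h1.trans ?_
  refine mul_le_mul_of_nonneg_left ?_ (by positivity)
  -- energy
  have h2 : ((((F ×ˢ P) ×ˢ (F ×ˢ P)).filter
      (fun x => x.1.1 + x.1.2 = x.2.1 + x.2.2)).card : ℝ) =
      ∑ q ∈ F, ∑ q' ∈ F, (((P ×ˢ P).filter (fun x => q + x.1 = q' + x.2)).card : ℝ) := by
    have h3 : (((F ×ˢ P) ×ˢ (F ×ˢ P)).filter (fun x => x.1.1 + x.1.2 = x.2.1 + x.2.2)).card =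
        ∑ qq ∈ F ×ˢ F, ((((F ×ˢ P) ×ˢ (F ×ˢ P)).filter
          (fun x => x.1.1 + x.1.2 = x.2.1 + x.2.2)).filter
            (fun x => (x.1.1, x.2.1) = qq)).card := by
      refine card_eq_sum_card_fiberwise fun x hx => ?_
      rw [mem_coe, mem_filter, mem_product, mem_product, mem_product] at hx
      exact mem_coe.2 (mem_product.2 ⟨hx.1.1.1, hx.1.2.1⟩)
    rw [h3, sum_product]
    push_cast
    refine sum_congr rfl fun q hq => sum_congr rfl fun q' hq' => ?_
    norm_cast
    refine card_bij (fun x _ => (x.1.2, x.2.2)) ?_ ?_ ?_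
    · intro x hx
      simp only [mem_filter, mem_product, Prod.mk.injEq] at hx ⊢
      obtain ⟨⟨⟨⟨a1, a2⟩, a3, a4⟩, a5⟩, a6, a7⟩ := hx
      refine ⟨⟨a2, a4⟩, ?_⟩
      rw [← a6, ← a7]; exact a5
    · intro x hx y hy hxy
      simp only [mem_filter, mem_product, Prod.mk.injEq] at hx hy hxy
      obtain ⟨_, a6, a7⟩ := hx
      obtain ⟨_, b6, b7⟩ := hy
      ext
      · exact a6.trans b6.symm
      · exact hxy.1
      · exact a7.trans b7.symm
      · exact hxy.2
    · intro y hy
      simp only [mem_filter, mem_product] at hy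
      refine ⟨((q, y.1), (q', y.2)), ?_, rfl⟩
      simp only [mem_filter, mem_product, Prod.mk.injEq, and_self, and_true]
      exact ⟨⟨⟨hq, hy.1.1⟩, hq', hy.1.2⟩, hy.2⟩
  rw [h2]
  have h4 : ∀ q ∈ F, (∑ q' ∈ F, (((P ×ˢ P).filter (fun x => q + x.1 = q' + x.2)).card : ℝ)) ≤
      P.card + F.card * M := by
    intro q hq
    rw [← add_sum_erase _ _ hq]
    have h5 : (((P ×ˢ P).filter (fun x => q + x.1 = q + x.2)).card : ℝ) ≤ P.card := by
      have : ((P ×ˢ P).filter (fun x => q + x.1 = q + x.2)) ⊆ P.image (fun p => (p, p)) := by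
        intro x hx
        rw [mem_filter, mem_product] at hx
        rw [mem_image]
        refine ⟨x.1, hx.1.1, ?_⟩
        ext
        · rfl
        · exact Nat.add_left_cancel hx.2
      exact_mod_cast (card_le_card this).trans card_image_le
    have h6 : (∑ q' ∈ F.erase q, (((P ×ˢ P).filter (fun x => q + x.1 = q' + x.2)).card : ℝ)) ≤
        F.card * M := by
      calc _ ≤ ∑ q' ∈ F.erase q, M := by
            refine sum_le_sum fun q' hq' => ?_
            rw [mem_erase] at hq'
            exact hM q hq q' hq'.2 hq'.1.symm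
        _ = (F.erase q).card * M := by rw [sum_const, nsmul_eq_mul]
        _ ≤ _ := by
            refine mul_le_mul_of_nonneg_right ?_ hM0
            exact_mod_cast card_le_card (erase_subset _ _)
    exact add_le_add h5 h6
  calc _ ≤ ∑ q ∈ F, ((P.card : ℝ) + F.card * M) := sum_le_sum h4
    _ = F.card * ((P.card : ℝ) + F.card * M) := by rw [sum_const, nsmul_eq_mul]
    _ = _ := by ring

end Pool.Agent.Helper24
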