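import Mathlib
import Pool.Agent.Helper24.PrimePairs

/-!
# Uniform upper bound for prime pairs
-/

set_option autoImplicit false

namespace Pool.Agent.Helper24

open Finset Nat Filter

noncomputable section

theorem exp_bound_aux : Real.exp (2 / Real.log 2) ≤ 18 := by
  have h1 : 2 / Real.log 2 ≤ 2.8854 := by
    have := Real.log_two_gt_d9
    rw [div_le_iff₀ (by linarith)]
    linarith
  refine (Real.exp_le_exp.2 h1).trans ?_
  have e1 : Real.exp 2.8854 = (Real.exp 1) ^ 3 * Real.exp (-0.1146) := by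
    rw [← Real.exp_nat_mul, ← Real.exp_add]; norm_num
  have e4 : (Real.exp 1) ^ 3 ≤ 20.0856 := by
    have e2 := Real.exp_one_lt_d9
    calc (Real.exp 1) ^ 3 ≤ (2.7182818286 : ℝ) ^ 3 := by gcongr
      _ ≤ _ := by norm_num
  have e5 : Real.exp (-0.1146) ≤ 0.8929 := by
    rw [Real.exp_neg]
    have : (1.12 : ℝ) ≤ Real.exp 0.1146 := by
      have := Real.quadratic_le_exp_of_nonneg (x := 0.1146) (by norm_num)
      norm_num at this ⊢
      linarith
    calc (Real.exp 0.1146)⁻¹ ≤ (1.12 : ℝ)⁻¹ := by gcongr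
      _ ≤ _ := by norm_num
  rw [e1]
  calc (Real.exp 1) ^ 3 * Real.exp (-0.1146) ≤ 20.0856 * 0.8929 := by gcongr
    _ ≤ 18 := by norm_num

/-- `∏_{p ∣ h} (1+1/p) ≪ log log x` uniformly for `h ≤ x`. -/
theorem eventually_prod_le : ∀ᶠ x : ℕ in atTop, ∀ h : ℕ, h ≠ 0 → h ≤ x →
    ∏ p ∈ h.primeFactors, (1 + 1 / (p : ℝ)) ≤ 540 * Real.log (Real.log x) := by
  have hlog : Tendsto (fun x : ℕ => Real.log x) atTop atTop :=
    Real.tendsto_log_atTop.comp tendsto_natCast_atTop_atTop
  filter_upwards [hlog.eventually_ge_atTop 3] with x hx h hh hhx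
  set y := ⌊Real.log x⌋₊ with hy
  have hy2 : 2 ≤ y := Nat.le_floor (by push_cast; linarith)
  have hyle : (y : ℝ) ≤ Real.log x := Nat.floor_le (by linarith)
  have hyge : Real.log x / 2 ≤ y := by
    have := Nat.lt_floor_add_one (Real.log x)
    rw [← hy] at this
    linarith
  have hy0 : (0 : ℝ) < y := by positivity
  have h1 := prod_primeFactors_one_add_inv_le hh hy2
  have hlh : Real.log h ≤ Real.log x := by
    refine Real.log_le_log ?_ (by exact_mod_cast hhx)
    exact_mod_cast Nat.pos_of_ne_zero hh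
  have hl2 : 0 < Real.log 2 := Real.log_pos (by norm_num)
  have h2 : Real.log h / Real.log 2 / y ≤ 2 / Real.log 2 := by
    rw [div_div, div_le_div_iff₀ (by positivity) hl2]
    nlinarith
  have h3 : Real.exp (Real.log h / Real.log 2 / y) ≤ 18 :=
    (Real.exp_le_exp.2 h2).trans exp_bound_aux
  have h4 : Real.log y ≤ Real.log (Real.log x) := Real.log_le_log hy0 hyle
  have h5 : 0 ≤ Real.log y := Real.log_natCast_nonneg y
  have h6 : 0 ≤ 30 * Real.log (Real.log x) := by linarith
  calc ∏ p ∈ h.primeFactors, (1 + 1 / (p : ℝ))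
      ≤ 30 * Real.log y * Real.exp (Real.log h / Real.log 2 / y) := h1
    _ ≤ 30 * Real.log (Real.log x) * 18 := by gcongr
    _ = _ := by ring

/-- choice of the sieving level -/
theorem eventually_level : ∀ᶠ x : ℕ in atTop, ∃ Z : ℕ, 2 ≤ Z ∧
    Real.log x / 25 ≤ Real.log Z ∧ 2 * (Z : ℝ) ^ 12 ≤ x / (Real.log x) ^ 2 := by
  have hlog : Tendsto (fun x : ℕ => Real.log x) atTop atTop :=
    Real.tendsto_log_atTop.comp tendsto_natCast_atTop_atTop
  have hlittle : ∀ᶠ x : ℕ in atTop, 2 * (Real.log x) ^ 2 ≤ Real.sqrt x := by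
    have h1 := (isLittleO_log_rpow_atTop (r := 1 / 4) (by norm_num)).bound
      (c := 1 / 2) (by norm_num)
    have h2 := (tendsto_natCast_atTop_atTop (R := ℝ)).eventually h1
    filter_upwards [h2, hlog.eventually_ge_atTop 0, eventually_ge_atTop 1] with x h3 h4 h5
    have hx0 : (0 : ℝ) ≤ x := by positivity
    rw [Real.norm_of_nonneg h4, Real.norm_of_nonneg (by positivity)] at h3
    have h6 : Real.log x ^ 2 ≤ (1 / 2 * (x : ℝ) ^ (1 / 4 : ℝ)) ^ 2 := by gcongr
    have h7 : ((x : ℝ) ^ (1 / 4 : ℝ)) ^ 2 = Real.sqrt x := by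
      rw [← Real.rpow_natCast, ← Real.rpow_mul hx0, Real.sqrt_eq_rpow]
      norm_num
    rw [mul_pow, h7] at h6
    have h8 := Real.sqrt_nonneg (x : ℝ)
    nlinarith
  filter_upwards [hlittle, hlog.eventually_ge_atTop (600 * Real.log 2),
    hlog.eventually_ge_atTop 1, eventually_ge_atTop 1] with x h1 h2 h3 h4
  have hl2 : 0 < Real.log 2 := Real.log_pos (by norm_num)
  have hx1 : (1 : ℝ) ≤ x := by exact_mod_cast h4
  have hx0 : (0 : ℝ) < x := by linarith
  set w : ℝ := (x : ℝ) ^ (1 / 24 : ℝ) with hw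
  have hw0 : 0 < w := by positivity
  have hlogw : Real.log w = Real.log x / 24 := by
    rw [hw, Real.log_rpow hx0]; ring
  have hw4 : 4 ≤ w := by
    rw [← Real.log_le_log_iff (by norm_num) hw0, hlogw]
    have : Real.log 4 = 2 * Real.log 2 := by
      rw [show (4 : ℝ) = 2 ^ 2 by norm_num, Real.log_pow]; norm_num
    rw [this]; linarith
  refine ⟨⌊w⌋₊, Nat.le_floor (by push_cast; linarith), ?_, ?_⟩
  · have h5 : w / 2 ≤ (⌊w⌋₊ : ℝ) := by
      have := Nat.lt_floor_add_one w
      linarith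
    have h6 := Real.log_le_log (by positivity) h5
    rw [Real.log_div hw0.ne' (by norm_num), hlogw] at h6
    linarith
  · have h5 : (⌊w⌋₊ : ℝ) ≤ w := Nat.floor_le hw0.le
    have h6 : (⌊w⌋₊ : ℝ) ^ 12 ≤ w ^ 12 := by gcongr
    have h7 : w ^ 12 = Real.sqrt x := by
      rw [hw, ← Real.rpow_natCast, ← Real.rpow_mul hx0.le, Real.sqrt_eq_rpow]
      norm_num
    rw [h7] at h6
    rw [le_div_iff₀ (by positivity)]
    have h8 := Real.sqrt_nonneg (x : ℝ)
    have h9 : Real.sqrt x * Real.sqrt x = x := Real.mul_self_sqrt hx0.le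
    calc 2 * (⌊w⌋₊ : ℝ) ^ 12 * Real.log x ^ 2 ≤ 2 * Real.sqrt x * Real.log x ^ 2 := by gcongr
      _ = Real.sqrt x * (2 * Real.log x ^ 2) := by ring
      _ ≤ Real.sqrt x * Real.sqrt x := by gcongr
      _ = x := h9

/-- **Prime pairs**, uniform in the difference. -/
theorem eventually_card_prime_pairs_le : ∀ᶠ x : ℕ in atTop, ∀ h : ℕ, h ≠ 0 → h ≤ x → Even h →
    (((primesLE x).filter (fun p => (p + h).Prime)).card : ℝ) ≤
      1350001 * (x * Real.log (Real.log x) / (Real.log x) ^ 2) := by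
  have hlog : Tendsto (fun x : ℕ => Real.log x) atTop atTop :=
    Real.tendsto_log_atTop.comp tendsto_natCast_atTop_atTop
  have hloglog : Tendsto (fun x : ℕ => Real.log (Real.log x)) atTop atTop :=
    Real.tendsto_log_atTop.comp hlog
  filter_upwards [eventually_prod_le, eventually_level, hlog.eventually_ge_atTop 1,
    hloglog.eventually_ge_atTop 1, eventually_ge_atTop 1] with x h1 h2 h3 h4 h5 h hh hhx heven
  obtain ⟨Z, hZ2, hZlog, hZ12⟩ := h2
  have hx0 : (0 : ℝ) < x := by exact_mod_cast h5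
  have h6 := card_prime_pairs_explicit heven hh x Z hZ2
  have h7 := h1 h hh hhx
  have hZl : 0 < Real.log Z := by linarith
  have h8 : 4 * x * (∏ p ∈ h.primeFactors, (1 + 1 / (p : ℝ))) / (Real.log Z) ^ 2 ≤
      4 * x * (540 * Real.log (Real.log x)) / (Real.log x / 25) ^ 2 := by gcongr
  have h9 : 4 * x * (540 * Real.log (Real.log x)) / (Real.log x / 25) ^ 2 =
      1350000 * (x * Real.log (Real.log x) / (Real.log x) ^ 2) := by
    have : Real.log x ≠ 0 := by linarith
    field_simp
    ring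
  have h10 : (x : ℝ) / (Real.log x) ^ 2 ≤ x * Real.log (Real.log x) / (Real.log x) ^ 2 := by
    gcongr
    nlinarith
  rw [h9] at h8
  linarith

theorem two_thirds_loglog : (0.09 : ℝ) ≤ Real.log (Real.log 3) := by
  -- log 3 ≥ 1.0986 and log 1.0986 ≥ 0.0897
  have h3 : (1.0986 : ℝ) ≤ Real.log 3 := by
    rw [Real.le_log_iff_exp_le (by norm_num)]
    have e1 : Real.exp 1.0986 = Real.exp 1 * Real.exp 0.0986 := by
      rw [← Real.exp_add]; norm_num
    have e2 := Real.exp_one_lt_d9
    have e3 : Real.exp 0.0986 ≤ 1.10363 := by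
      have := Real.exp_bound' (x := 0.0986) (by norm_num) (by norm_num) (n := 4) (by norm_num)
      refine this.trans ?_
      norm_num [Finset.sum_range_succ, Nat.factorial]
    rw [e1]
    calc Real.exp 1 * Real.exp 0.0986 ≤ 2.7182818286 * 1.10363 := by gcongr
      _ ≤ 3 := by norm_num
  have h4 : Real.log 1.0986 ≤ Real.log (Real.log 3) := Real.log_le_log (by norm_num) h3
  refine le_trans ?_ h4
  rw [Real.le_log_iff_exp_le (by norm_num)]
  have := Real.exp_bound' (x := 0.09) (by norm_num) (by norm_num) (n := 4) (by norm_num)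
  refine this.trans ?_
  norm_num [Finset.sum_range_succ, Nat.factorial]

/-- `∏_{p ∣ h} (1+1/p) ≤ 540 log log y` for all `1 ≤ h ≤ y`, `y ≥ 3`. -/
theorem prod_le_of_le {y h : ℕ} (hy3 : 3 ≤ y) (hh : h ≠ 0) (hhy : h ≤ y) :
    ∏ p ∈ h.primeFactors, (1 + 1 / (p : ℝ)) ≤ 540 * Real.log (Real.log y) := by
  by_cases hbig : 3 ≤ Real.log y
  · set z := ⌊Real.log y⌋₊ with hz
    have hz2 : 2 ≤ z := Nat.le_floor (by push_cast; linarith)
    have hzle : (z : ℝ) ≤ Real.log y := Nat.floor_le (by linarith)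
    have hzge : Real.log y / 2 ≤ z := by
      have := Nat.lt_floor_add_one (Real.log y)
      rw [← hz] at this
      linarith
    have hz0 : (0 : ℝ) < z := by positivity
    have h1 := prod_primeFactors_one_add_inv_le hh hz2
    have hlh : Real.log h ≤ Real.log y := by
      refine Real.log_le_log ?_ (by exact_mod_cast hhy)
      exact_mod_cast Nat.pos_of_ne_zero hh
    have hl2 : 0 < Real.log 2 := Real.log_pos (by norm_num)
    have h2 : Real.log h / Real.log 2 / z ≤ 2 / Real.log 2 := by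
      rw [div_div, div_le_div_iff₀ (by positivity) hl2]
      nlinarith
    have h3 : Real.exp (Real.log h / Real.log 2 / z) ≤ 18 :=
      (Real.exp_le_exp.2 h2).trans exp_bound_aux
    have h4 : Real.log z ≤ Real.log (Real.log y) := Real.log_le_log hz0 hzle
    have h5 : 0 ≤ Real.log z := Real.log_natCast_nonneg z
    have h6 : 0 ≤ 30 * Real.log (Real.log y) := by linarith
    calc ∏ p ∈ h.primeFactors, (1 + 1 / (p : ℝ))
        ≤ 30 * Real.log z * Real.exp (Real.log h / Real.log 2 / z) := h1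
      _ ≤ 30 * Real.log (Real.log y) * 18 := by gcongr
      _ = _ := by ring
  · push Not at hbig
    have hy20 : y ≤ 20 := by
      by_contra hcon
      push Not at hcon
      have h1 : Real.log 21 ≤ Real.log y :=
        Real.log_le_log (by norm_num) (by exact_mod_cast hcon)
      have h2 : (3 : ℝ) ≤ Real.log 21 := by
        rw [Real.le_log_iff_exp_le (by norm_num)]
        have e2 := Real.exp_one_lt_d9
        have : Real.exp 3 = (Real.exp 1) ^ 3 := by rw [← Real.exp_nat_mul]; norm_num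
        rw [this]
        calc (Real.exp 1) ^ 3 ≤ (2.7182818286 : ℝ) ^ 3 := by gcongr
          _ ≤ _ := by norm_num
      linarith
    have h1 : ∏ p ∈ h.primeFactors, (1 + 1 / (p : ℝ)) ≤ ∏ p ∈ h.primeFactors, (2 : ℝ) := by
      refine prod_le_prod (fun p _ => by positivity) fun p hp => ?_
      have : (1 : ℝ) ≤ p := by exact_mod_cast (prime_of_mem_primeFactors hp).one_lt.le
      have : 1 / (p : ℝ) ≤ 1 := (div_le_one (by linarith)).2 this
      linarith
    rw [prod_const] at h1
    have h2 : (2 : ℝ) ^ h.primeFactors.card ≤ 20 := by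
      have := (two_pow_card_primeFactors_le hh).trans (hhy.trans hy20)
      exact_mod_cast this
    have h3 : Real.log (Real.log 3) ≤ Real.log (Real.log y) := by
      have hl3 : 0 < Real.log 3 := Real.log_pos (by norm_num)
      refine Real.log_le_log hl3 (Real.log_le_log (by norm_num) (by exact_mod_cast hy3))
    have h4 := two_thirds_loglog
    linarith

/-- **Prime pairs**, uniform in the difference `h ≤ y ≤ x`. -/
theorem eventually_card_prime_pairs_le' : ∀ᶠ x : ℕ in atTop, ∀ y : ℕ, 3 ≤ y → ∀ h : ℕ,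
    h ≠ 0 → h ≤ y → Even h →
    (((primesLE x).filter (fun p => (p + h).Prime)).card : ℝ) ≤
      1350012 * (x * Real.log (Real.log y) / (Real.log x) ^ 2) := by
  have hlog : Tendsto (fun x : ℕ => Real.log x) atTop atTop :=
    Real.tendsto_log_atTop.comp tendsto_natCast_atTop_atTop
  filter_upwards [eventually_level, hlog.eventually_ge_atTop 1, eventually_ge_atTop 1] with
    x h2 h3 h5 y hy h hh hhy heven
  obtain ⟨Z, hZ2, hZlog, hZ12⟩ := h2
  have hx0 : (0 : ℝ) < x := by exact_mod_cast h5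
  have h6 := card_prime_pairs_explicit heven hh x Z hZ2
  have h7 := prod_le_of_le hy hh hhy
  have hZl : 0 < Real.log Z := by linarith
  have hll : (0.09 : ℝ) ≤ Real.log (Real.log y) := by
    have hl3 : 0 < Real.log 3 := Real.log_pos (by norm_num)
    exact two_thirds_loglog.trans
      (Real.log_le_log hl3 (Real.log_le_log (by norm_num) (by exact_mod_cast hy)))
  have hll0 : 0 ≤ 4 * (x : ℝ) * (540 * Real.log (Real.log y)) := by positivity
  have h8 : 4 * x * (∏ p ∈ h.primeFactors, (1 + 1 / (p : ℝ))) / (Real.log Z) ^ 2 ≤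
      4 * x * (540 * Real.log (Real.log y)) / (Real.log x / 25) ^ 2 := by
    gcongr
  have h9 : 4 * x * (540 * Real.log (Real.log y)) / (Real.log x / 25) ^ 2 =
      1350000 * (x * Real.log (Real.log y) / (Real.log x) ^ 2) := by
    have : Real.log x ≠ 0 := by linarith
    field_simp
    ring
  have h10 : (x : ℝ) / (Real.log x) ^ 2 ≤
      12 * (x * Real.log (Real.log y) / (Real.log x) ^ 2) := by
    rw [← mul_div_assoc]
    gcongr
    nlinarith
  rw [h9] at h8
  linarith

end

end Pool.Agent.Helper24
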